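import Pool.Agent.H42.TQ.B1
import Pool.Agent.H87.EP.G
import Pool.Agent.H87.EP.J

/-! MP_09540e_TQ, group C: sums over the boxes. -/

set_option autoImplicit false

open Set Filter Topology MeasureTheory
open scoped ContDiff InnerProductSpace

namespace Pool.Agent.H87.TQ

open Pool.Agent.H16 Pool.Agent.H87.NS Pool.Agent.H72.CC Pool.Agent.H16.TU Pool.Agent.H94.EP Pool.Agent.H87.EP Pool.Agent.H42.TQ

/-- The integral over a box. -/
noncomputable def Bi (L b : ℝ) (f : E3 → ℝ) : ℝ := ∫ x in {x : E3 | |x 2 - b| ≤ 2 * L}, f x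

theorem ph_near {L : ℝ} (hL : 0 < L) (a : ℝ) {b s : ℝ} (h : |s - b| ≤ 2 * L) : ph L a b ≤ 9 * ph L a s := by
  unfold ph
  rw [← div_pow, ← div_pow]
  have e1 : (s - a) / L = (b - a) / L + (s - b) / L := by ring
  have h1 : |(s - b) / L| ≤ 2 := by
    rw [abs_div, abs_of_pos hL, div_le_iff₀ hL]
    exact h
  have h2 : ((s - b) / L) ^ 2 ≤ 4 := by
    rw [← sq_abs]
    nlinarith [abs_nonneg ((s - b) / L)]
  rw [← div_eq_mul_inv, inv_eq_one_div, div_le_div_iff₀ (by positivity) (by positivity), e1]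
  nlinarith [sq_nonneg ((b - a) / L - (s - b) / L)]

theorem ph_symm (L a s : ℝ) : ph L a s = ph L s a := by
  unfold ph
  congr 3
  ring

theorem ph_nn (L a s : ℝ) : 0 ≤ ph L a s := (ph_pos L a s).le

theorem x2_cont : Continuous (fun x : E3 => x 2) := (D_coord 2).continuous

theorem box_meas (L b : ℝ) : MeasurableSet {x : E3 | |x 2 - b| ≤ 2 * L} :=
  (isClosed_le ((x2_cont.sub continuous_const).abs) continuous_const).measurableSet

theorem boxp_meas (L : ℝ) : MeasurableSet {p : ℝ × E3 | |p.2 2 - p.1| ≤ 2 * L} :=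
  (isClosed_le (((x2_cont.comp continuous_snd).sub continuous_fst).abs) continuous_const).measurableSet

theorem bx_core {L : ℝ} (hL : 0 < L) {g : E3 → ℝ} (hm : Measurable g) (hi : Integrable g) :
    Integrable (fun p : ℝ × E3 => indicator {p : ℝ × E3 | |p.2 2 - p.1| ≤ 2 * L} (fun p => g p.2) p) ∧
      ∀ x : E3, ∫ b, indicator {p : ℝ × E3 | |p.2 2 - p.1| ≤ 2 * L} (fun p => g p.2) (b, x) = 4 * L * g x := by
  have e : ∀ x : E3, (fun b => indicator {p : ℝ × E3 | |p.2 2 - p.1| ≤ 2 * L} (fun p => g p.2) (b, x)) =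
      (Icc (x 2 - 2 * L) (x 2 + 2 * L)).indicator (fun _ => g x) := by
    intro x
    funext b
    by_cases h : |x 2 - b| ≤ 2 * L
    · rw [indicator_of_mem (by exact h), indicator_of_mem]
      rw [abs_le] at h
      exact ⟨by linarith [h.2], by linarith [h.1]⟩
    · rw [indicator_of_notMem (by exact h), indicator_of_notMem]
      intro hb
      exact h (abs_le.2 ⟨by linarith [hb.2], by linarith [hb.1]⟩)
  have e2 : ∀ x : E3, ∫ b, indicator {p : ℝ × E3 | |p.2 2 - p.1| ≤ 2 * L} (fun p => g p.2) (b, x) = 4 * L * g x := by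
    intro x
    rw [e x, integral_indicator measurableSet_Icc, setIntegral_const, Real.volume_real_Icc_of_le (by linarith), smul_eq_mul]
    ring
  refine ⟨?_, e2⟩
  have hms : Measurable (fun p : ℝ × E3 => indicator {p : ℝ × E3 | |p.2 2 - p.1| ≤ 2 * L} (fun p => g p.2) p) :=
    (hm.comp measurable_snd).indicator (boxp_meas L)
  rw [Measure.volume_eq_prod, integrable_prod_iff' hms.aestronglyMeasurable]
  constructor
  · filter_upwards with x
    rw [e x]
    exact (integrable_indicator_iff measurableSet_Icc).2 (integrableOn_const (by simp))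
  · have e3 : (fun x : E3 => ∫ b, ‖indicator {p : ℝ × E3 | |p.2 2 - p.1| ≤ 2 * L} (fun p => g p.2) (b, x)‖) = fun x => 4 * L * ‖g x‖ := by
      funext x
      have : (fun b => ‖indicator {p : ℝ × E3 | |p.2 2 - p.1| ≤ 2 * L} (fun p => g p.2) (b, x)‖) =
          (Icc (x 2 - 2 * L) (x 2 + 2 * L)).indicator (fun _ => ‖g x‖) := by
        have e0 := e x
        funext b
        have e1 := congrFun e0 b
        dsimp only at e1
        rw [e1, norm_indicator_eq_indicator_norm]
      rw [this, integral_indicator measurableSet_Icc, setIntegral_const, Real.volume_real_Icc_of_le (by linarith), smul_eq_mul]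
      ring
    rw [e3]
    exact hi.norm.const_mul _

/-- Sum over the boxes. -/
theorem bx {L : ℝ} (hL : 0 < L) (a : ℝ) {f : E3 → ℝ} (hm : Measurable f) (h0 : ∀ x, 0 ≤ f x)
    (hi : Integrable (fun x => ph L a (x 2) * f x)) :
    Integrable (fun b => ph L a b * Bi L b f) ∧ (1 / L) * ∫ b, ph L a b * Bi L b f ≤ 36 * ∫ x, ph L a (x 2) * f x := by
  have hpc : Continuous (ph L a) := (ph_smooth L a).continuous
  have hgm : Measurable (fun x : E3 => ph L a (x 2) * f x) := (hpc.comp x2_cont).measurable.mul hm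
  obtain ⟨h1, h2⟩ := bx_core hL hgm hi
  obtain ⟨H, hH⟩ : ∃ H : ℝ × E3 → ℝ, H = fun p => ph L a p.1 * indicator {p : ℝ × E3 | |p.2 2 - p.1| ≤ 2 * L} (fun p => f p.2) p := ⟨_, rfl⟩
  have hHm : Measurable H := by
    rw [hH]
    exact (hpc.comp continuous_fst).measurable.mul ((hm.comp measurable_snd).indicator (boxp_meas L))
  have hH0 : ∀ p, 0 ≤ H p := by
    intro p
    rw [hH]
    exact mul_nonneg (ph_nn _ _ _) (indicator_nonneg (fun q _ => h0 q.2) _)
  have hHle : ∀ p, H p ≤ 9 * indicator {p : ℝ × E3 | |p.2 2 - p.1| ≤ 2 * L} (fun p => ph L a (p.2 2) * f p.2) p := by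
    intro p
    rw [hH]
    dsimp only
    by_cases h : |p.2 2 - p.1| ≤ 2 * L
    · rw [indicator_of_mem (by exact h), indicator_of_mem (by exact h), ← mul_assoc]
      exact mul_le_mul_of_nonneg_right (ph_near hL a h) (h0 _)
    · rw [indicator_of_notMem (by exact h), indicator_of_notMem (by exact h)]
      simp
  have hHi : Integrable H := by
    refine (h1.const_mul 9).mono' hHm.aestronglyMeasurable ?_
    filter_upwards with p
    rw [Real.norm_of_nonneg (hH0 p)]
    exact hHle p
  have hHe : ∀ b, ∫ x, H (b, x) = ph L a b * Bi L b f := by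
    intro b
    rw [hH]
    dsimp only
    rw [integral_const_mul]
    congr 1
    unfold Bi
    rw [← integral_indicator (box_meas L b)]
    rfl
  have hHi' : Integrable H ((volume : Measure ℝ).prod volume) := hHi
  have i1 := hHi'.integral_prod_left
  have e1 := integral_prod H hHi'
  have e2 := integral_prod_symm H hHi'
  have h1' : Integrable (fun p : ℝ × E3 => indicator {p : ℝ × E3 | |p.2 2 - p.1| ≤ 2 * L} (fun p => ph L a (p.2 2) * f p.2) p)
    ((volume : Measure ℝ).prod volume) := h1
  have e3 := integral_prod_symm _ h1'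
  simp only [hHe] at i1 e1
  refine ⟨i1, ?_⟩
  rw [← e1]
  have h3 : ∫ p, H p ∂((volume : Measure ℝ).prod volume) ≤
      ∫ p, 9 * indicator {p : ℝ × E3 | |p.2 2 - p.1| ≤ 2 * L} (fun p => ph L a (p.2 2) * f p.2) p ∂((volume : Measure ℝ).prod volume) :=
    integral_mono hHi' (h1'.const_mul 9) hHle
  rw [integral_const_mul, e3] at h3
  simp only [h2] at h3
  rw [integral_const_mul] at h3
  calc (1 / L) * ∫ p, H p ∂((volume : Measure ℝ).prod volume) ≤ (1 / L) * (9 * (4 * L * ∫ x, ph L a (x 2) * f x)) :=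
        mul_le_mul_of_nonneg_left h3 (by positivity)
    _ = 36 * ∫ x, ph L a (x 2) * f x := by field_simp; ring

end Pool.Agent.H87.TQ
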