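import Pool.Agent.H42.TQ.B1
import Pool.Agent.H87.EP.G
import Pool.Agent.H87.EP.J

/-! MP_09540e_TQ, group C: Hardy's inequality with a logarithm in the horizontal plane. -/

set_option autoImplicit false

open Set Filter Topology MeasureTheory
open scoped ContDiff InnerProductSpace

namespace Pool.Agent.H87.TQ

open Pool.Agent.H16 Pool.Agent.H87.NS Pool.Agent.H72.CC Pool.Agent.H16.TU Pool.Agent.H94.EP Pool.Agent.H87.EP Pool.Agent.H42.TQ

/-- The profile. -/
noncomputable def hp (r2 s : ℝ) : ℝ := (Real.log ((s + r2) / r2) + 1) / (2 * (s + r2))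

theorem hp_der {r2 s : ℝ} (hr : 0 < r2) (hs : 0 ≤ s) :
    HasDerivAt (hp r2) (- Real.log ((s + r2) / r2) / (2 * (s + r2) ^ 2)) s := by
  have h0 : 0 < s + r2 := by linarith
  have h1 : HasDerivAt (fun s : ℝ => (s + r2) / r2) (1 / r2) s := ((hasDerivAt_id s).add_const r2).div_const r2
  have h2 := (h1.log (by positivity)).add_const 1
  have h3 : HasDerivAt (fun s : ℝ => 2 * (s + r2)) (2 * 1) s := ((hasDerivAt_id s).add_const r2).const_mul 2
  refine (h2.div h3 (by positivity)).congr_deriv ?_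
  field_simp
  ring

theorem rsq_cd : ContDiff ℝ ∞ (rsq : E3 → ℝ) := ((D_coord 0).pow 2).add ((D_coord 1).pow 2)

theorem rsq_nn (x : E3) : 0 ≤ rsq x := P_rsq_nonneg x

theorem phi_cd {r2 : ℝ} (hr : 0 < r2) : ContDiff ℝ ∞ (fun x : E3 => hp r2 (rsq x)) := by
  unfold hp
  have h0 : ∀ x : E3, 0 < rsq x + r2 := fun x => by have := rsq_nn x; linarith
  refine ContDiff.div ?_ ?_ ?_
  · refine ContDiff.add (ContDiff.log ((rsq_cd.add contDiff_const).div_const _) fun x => ?_) contDiff_const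
    have := h0 x
    positivity
  · exact contDiff_const.mul (rsq_cd.add contDiff_const)
  · intro x
    have := h0 x
    positivity

theorem pd_rsq (i : Fin 3) (x : E3) : HasFDerivAt (rsq : E3 → ℝ) (fderiv ℝ rsq x) x ∧ fderiv ℝ rsq x (e i) = 2 * x 0 * e i 0 + 2 * x 1 * e i 1 := by
  refine ⟨((rsq_cd.differentiable (by simp)) x).hasFDerivAt, ?_⟩
  have h2 : HasFDerivAt (fun y : E3 => y 0 * y 0 + y 1 * y 1) _ x :=
    (((P_coord 0 x).mul (P_coord 0 x)).add ((P_coord 1 x).mul (P_coord 1 x)))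
  have h3 : (rsq : E3 → ℝ) = fun y : E3 => y 0 * y 0 + y 1 * y 1 := by
    funext y
    unfold rsq
    ring
  rw [h3, h2.fderiv]
  change (x 0 * e i 0 + x 0 * e i 0) + (x 1 * e i 1 + x 1 * e i 1) = _
  ring

theorem pd_phi {r2 : ℝ} (hr : 0 < r2) (i : Fin 3) (x : E3) :
    pd i (fun x : E3 => x i * hp r2 (rsq x)) x =
      hp r2 (rsq x) + x i * (- Real.log ((rsq x + r2) / r2) / (2 * (rsq x + r2) ^ 2) * (2 * x 0 * e i 0 + 2 * x 1 * e i 1)) := by
  have h1 : pd i (fun x : E3 => hp r2 (rsq x)) x =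
      - Real.log ((rsq x + r2) / r2) / (2 * (rsq x + r2) ^ 2) * (2 * x 0 * e i 0 + 2 * x 1 * e i 1) := by
    have h2 := (hp_der hr (rsq_nn x)).comp_hasFDerivAt x (pd_rsq i x).1
    unfold pd
    have h3 : (fun x : E3 => hp r2 (rsq x)) = hp r2 ∘ rsq := rfl
    rw [h3, h2.fderiv]
    change _ * fderiv ℝ rsq x (e i) = _
    rw [(pd_rsq i x).2]
  rw [D_pdmul (phi_cd hr), h1]

theorem ibp {F φ : E3 → ℝ} (hF : Cs F) (hφ : ContDiff ℝ ∞ φ) (i : Fin 3) :
    ∫ x, pd i φ x * F x ^ 2 = - 2 * ∫ x, φ x * F x * pd i F x := by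
  have h1 : Cs (fun x => φ x * F x) := hF.mul_left hφ
  have hc : Continuous (pd i F) := (hF.pd i).cont
  have e1 := integral_mul_fderiv_eq_neg_fderiv_mul_of_integrable (𝕜 := ℝ) (μ := volume) (f := fun x => φ x * F x) (g := F) (v := e i)
    ?_ ?_ ?_ (fun x _ => h1.sm.differentiable (by simp) x) (fun x _ => hF.sm.differentiable (by simp) x)
  · have e2 : ∀ x, fderiv ℝ (fun x => φ x * F x) x (e i) * F x = pd i φ x * F x ^ 2 + φ x * F x * pd i F x := by
      intro x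
      have h3 := A_pd_mul hφ hF.sm i
      have h4 := congrFun h3 x
      unfold pd at h4 ⊢
      rw [h4]
      ring
    have e3 : ∫ x, fderiv ℝ (fun x => φ x * F x) x (e i) * F x = (∫ x, pd i φ x * F x ^ 2) + ∫ x, φ x * F x * pd i F x := by
      simp only [e2]
      refine integral_add ?_ ?_
      · refine Continuous.integrable_of_hasCompactSupport ?_ ?_
        · exact (pd_smooth hφ i).continuous.mul (hF.cont.pow 2)
        · have : HasCompactSupport (fun x => F x ^ 2) := by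
            have h5 := hF.cs.mul_left (f := F)
            have h6 : (fun x => F x ^ 2) = F * F := by
              funext x
              exact pow_two _
            rw [h6]
            exact h5
          exact this.mul_left
      · refine Continuous.integrable_of_hasCompactSupport ?_ ?_
        · exact h1.cont.mul hc
        · exact h1.cs.mul_right
    rw [e3] at e1
    unfold pd at e1 ⊢
    linarith
  · exact Continuous.integrable_of_hasCompactSupport (((h1.pd i).cont).mul hF.cont) (hF.cs.mul_left)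
  · exact Continuous.integrable_of_hasCompactSupport (h1.cont.mul hc) h1.cs.mul_right
  · exact Continuous.integrable_of_hasCompactSupport (h1.cont.mul hF.cont) hF.cs.mul_left

theorem Cs_cont_int {F G : E3 → ℝ} (hF : Cs F) (hG : Continuous G) : Integrable (fun x => G x * F x) :=
  Continuous.integrable_of_hasCompactSupport (hG.mul hF.cont) hF.cs.mul_left

theorem Cs_sq {F : E3 → ℝ} (hF : Cs F) : Cs (fun x => F x ^ 2) := by
  have h6 : (fun x => F x ^ 2) = fun x => F x * F x := by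
    funext x
    exact pow_two _
  rw [h6]
  exact hF.mul_left hF.sm

/-- Hardy's inequality with a logarithm. -/
theorem logH {F : E3 → ℝ} (hF : Cs F) (hs : ∀ x, 1 < rsq x → F x = 0) {r2 : ℝ} (hr : 0 < r2) :
    ∫ x, F x ^ 2 / (rsq x + r2) ≤ (1 + Real.log ((1 + r2) / r2)) ^ 2 * ∫ x, (pd 0 F x ^ 2 + pd 1 F x ^ 2) := by
  obtain ⟨Λ, hΛ⟩ : ∃ Λ, Λ = 1 + Real.log ((1 + r2) / r2) := ⟨_, rfl⟩
  have hΛ1 : 1 ≤ Λ := by
    rw [hΛ]
    have : 0 ≤ Real.log ((1 + r2) / r2) := Real.log_nonneg (by rw [le_div_iff₀ hr]; linarith)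
    linarith
  have h0 : ∀ x : E3, 0 < rsq x + r2 := fun x => by have := rsq_nn x; linarith
  have hφ : ∀ i : Fin 3, ContDiff ℝ ∞ (fun x : E3 => x i * hp r2 (rsq x)) := fun i => (D_coord i).mul (phi_cd hr)
  have e0 := ibp hF (hφ 0) 0
  have e1 := ibp hF (hφ 1) 1
  have hwc : Continuous (fun x : E3 => (rsq x + r2)⁻¹) :=
    (rsq_cd.continuous.add continuous_const).inv₀ fun x => (h0 x).ne'
  have i2 := Cs_cont_int (Cs_sq hF) hwc
  have iA0 := Cs_cont_int (Cs_sq hF) ((pd_smooth (hφ 0) 0).continuous)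
  have iA1 := Cs_cont_int (Cs_sq hF) ((pd_smooth (hφ 1) 1).continuous)
  have iB0 : Integrable (fun x => (x 0 * hp r2 (rsq x)) * F x * pd 0 F x) :=
    Cs_cont_int (hF.pd 0) ((hφ 0).continuous.mul hF.cont)
  have iB1 : Integrable (fun x => (x 1 * hp r2 (rsq x)) * F x * pd 1 F x) :=
    Cs_cont_int (hF.pd 1) ((hφ 1).continuous.mul hF.cont)
  have iP : Integrable (fun x => pd 0 F x ^ 2 + pd 1 F x ^ 2) := by
    have j0 := Cs_cont_int (Cs_sq (hF.pd 0)) (continuous_const (y := (1:ℝ)))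
    have j1 := Cs_cont_int (Cs_sq (hF.pd 1)) (continuous_const (y := (1:ℝ)))
    simp only [one_mul] at j0 j1
    exact j0.add j1
  -- the pointwise inequality
  have key : ∀ x, (rsq x + r2)⁻¹ * F x ^ 2 ≤
      (pd 0 (fun x : E3 => x 0 * hp r2 (rsq x)) x * F x ^ 2 + pd 1 (fun x : E3 => x 1 * hp r2 (rsq x)) x * F x ^ 2) := by
    intro x
    rw [pd_phi hr, pd_phi hr, ← add_mul]
    refine mul_le_mul_of_nonneg_right ?_ (sq_nonneg _)
    have hl : 0 ≤ Real.log ((rsq x + r2) / r2) := Real.log_nonneg (by rw [le_div_iff₀ hr]; have := rsq_nn x; linarith)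
    have e00 : (e 0 : E3) 0 = 1 := by rw [e_apply]; simp
    have e01 : (e 0 : E3) 1 = 0 := by rw [e_apply]; simp
    have e10 : (e 1 : E3) 0 = 0 := by rw [e_apply]; simp
    have e11 : (e 1 : E3) 1 = 1 := by rw [e_apply]; simp
    rw [e00, e01, e10, e11]
    unfold hp
    obtain ⟨ℓ, hℓ⟩ : ∃ ℓ, ℓ = Real.log ((rsq x + r2) / r2) := ⟨_, rfl⟩
    rw [← hℓ] at hl ⊢
    have hx := h0 x
    have hs' : rsq x = x 0 ^ 2 + x 1 ^ 2 := rfl
    have e5 : (ℓ + 1) / (2 * (rsq x + r2)) + x 0 * (-ℓ / (2 * (rsq x + r2) ^ 2) * (2 * x 0 * 1 + 2 * x 1 * 0)) +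
        ((ℓ + 1) / (2 * (rsq x + r2)) + x 1 * (-ℓ / (2 * (rsq x + r2) ^ 2) * (2 * x 0 * 0 + 2 * x 1 * 1))) =
        (rsq x + r2)⁻¹ + r2 * ℓ / (rsq x + r2) ^ 2 := by
      field_simp
      linear_combination (2 * ℓ) * hs'
    rw [e5]
    have : 0 ≤ r2 * ℓ / (rsq x + r2) ^ 2 := by positivity
    linarith
  -- Young
  have young : ∀ x, -(2 * ((x 0 * hp r2 (rsq x)) * F x * pd 0 F x + (x 1 * hp r2 (rsq x)) * F x * pd 1 F x)) ≤
      1 / 2 * ((rsq x + r2)⁻¹ * F x ^ 2) + Λ ^ 2 / 2 * (pd 0 F x ^ 2 + pd 1 F x ^ 2) := by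
    intro x
    by_cases hx1 : 1 < rsq x
    · rw [hs x hx1]
      have : 0 ≤ Λ ^ 2 / 2 * (pd 0 F x ^ 2 + pd 1 F x ^ 2) := by positivity
      simp only [mul_zero, zero_mul, add_zero, neg_zero]
      have h9 : (0:ℝ) ^ 2 = 0 := by norm_num
      rw [h9, mul_zero, mul_zero, zero_add]
      exact this
    · have hl : 0 ≤ Real.log ((rsq x + r2) / r2) := Real.log_nonneg (by rw [le_div_iff₀ hr]; have := rsq_nn x; linarith)
      have hl1 : Real.log ((rsq x + r2) / r2) + 1 ≤ Λ := by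
        rw [hΛ]
        have : Real.log ((rsq x + r2) / r2) ≤ Real.log ((1 + r2) / r2) := by
          have := h0 x
          refine Real.log_le_log (by positivity) (by gcongr; linarith [not_lt.1 hx1])
        linarith
      have hh : hp r2 (rsq x) ^ 2 * (rsq x) ≤ Λ ^ 2 / 4 * (rsq x + r2)⁻¹ := by
        unfold hp
        have hx := h0 x
        rw [div_pow, mul_comm (Λ ^ 2 / 4), ← div_eq_inv_mul, div_mul_eq_mul_div, div_le_div_iff₀ (by positivity) hx]
        have h10 : (Real.log ((rsq x + r2) / r2) + 1) ^ 2 ≤ Λ ^ 2 := pow_le_pow_left₀ (by linarith) hl1 2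
        have h11 : rsq x ≤ rsq x + r2 := by linarith
        have h12 : (Real.log ((rsq x + r2) / r2) + 1) ^ 2 * rsq x ≤ Λ ^ 2 * (rsq x + r2) :=
          mul_le_mul h10 h11 (rsq_nn x) (sq_nonneg _)
        have h13 := mul_le_mul_of_nonneg_right h12 hx.le
        linarith only [h13]
      obtain ⟨h, hhe⟩ : ∃ h, h = hp r2 (rsq x) := ⟨_, rfl⟩
      obtain ⟨w, hw⟩ : ∃ w, w = (rsq x + r2)⁻¹ := ⟨_, rfl⟩
      rw [← hhe] at hh ⊢
      rw [← hw] at hh ⊢
      have hs' : rsq x = x 0 ^ 2 + x 1 ^ 2 := rfl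
      have hcs : (x 0 * pd 0 F x + x 1 * pd 1 F x) ^ 2 ≤ rsq x * (pd 0 F x ^ 2 + pd 1 F x ^ 2) := by
        rw [hs']
        exact P_cs _ _ _ _
      obtain ⟨P, hP⟩ : ∃ P, P = x 0 * pd 0 F x + x 1 * pd 1 F x := ⟨_, rfl⟩
      obtain ⟨Q, hQ⟩ : ∃ Q, Q = pd 0 F x ^ 2 + pd 1 F x ^ 2 := ⟨_, rfl⟩
      have hQ0 : 0 ≤ Q := by rw [hQ]; positivity
      have e6 : -(2 * (x 0 * h * F x * pd 0 F x + x 1 * h * F x * pd 1 F x)) = -(2 * (h * F x * P)) := by rw [hP]; ring
      rw [e6, ← hQ]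
      rw [← hP, ← hQ] at hcs
      have hw0 : 0 < w := by rw [hw]; exact inv_pos.2 (h0 x)
      have h14 : (h * P) ^ 2 ≤ Λ ^ 2 / 4 * w * Q := by
        calc (h * P) ^ 2 = h ^ 2 * P ^ 2 := by ring
          _ ≤ h ^ 2 * (rsq x * Q) := mul_le_mul_of_nonneg_left hcs (sq_nonneg _)
          _ = (h ^ 2 * rsq x) * Q := by ring
          _ ≤ Λ ^ 2 / 4 * w * Q := mul_le_mul_of_nonneg_right hh hQ0
      -- -2 F (hP) ≤ 1/2 w F² + (2/w)(hP)²
      have h15 : -(2 * (h * F x * P)) * w ≤ 1 / 2 * w ^ 2 * F x ^ 2 + 2 * (h * P) ^ 2 := by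
        linarith only [sq_nonneg (w * F x + 2 * (h * P))]
      have h16 : -(2 * (h * F x * P)) * w ≤ (1 / 2 * (w * F x ^ 2) + Λ ^ 2 / 2 * Q) * w := by
        calc _ ≤ 1 / 2 * w ^ 2 * F x ^ 2 + 2 * (h * P) ^ 2 := h15
          _ ≤ 1 / 2 * w ^ 2 * F x ^ 2 + 2 * (Λ ^ 2 / 4 * w * Q) := by linarith
          _ = _ := by ring
      exact le_of_mul_le_mul_right h16 hw0
  have s1 : ∫ x, (rsq x + r2)⁻¹ * F x ^ 2 ≤ ∫ x, (pd 0 (fun x : E3 => x 0 * hp r2 (rsq x)) x * F x ^ 2 +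
      pd 1 (fun x : E3 => x 1 * hp r2 (rsq x)) x * F x ^ 2) := integral_mono i2 (iA0.add iA1) key
  rw [integral_add iA0 iA1, e0, e1] at s1
  have s2 : ∫ x, -(2 * ((x 0 * hp r2 (rsq x)) * F x * pd 0 F x + (x 1 * hp r2 (rsq x)) * F x * pd 1 F x)) ≤
      ∫ x, (1 / 2 * ((rsq x + r2)⁻¹ * F x ^ 2) + Λ ^ 2 / 2 * (pd 0 F x ^ 2 + pd 1 F x ^ 2)) :=
    integral_mono (((iB0.add iB1).const_mul 2).neg) ((i2.const_mul _).add (iP.const_mul _)) young
  rw [integral_add (i2.const_mul _) (iP.const_mul _), integral_const_mul, integral_const_mul, integral_neg, integral_const_mul,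
    integral_add iB0 iB1] at s2
  have e7 : ∫ x, F x ^ 2 / (rsq x + r2) = ∫ x, (rsq x + r2)⁻¹ * F x ^ 2 := by
    congr 1
    funext x
    rw [div_eq_inv_mul]
  rw [e7, ← hΛ]
  linarith

end Pool.Agent.H87.TQ
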