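import Pool.Agent.H90.TQ.Mb
import Pool.Agent.H87.TQ.Bx
import Pool.Agent.H87.TQ.Lh

/-! MP_09540e_TQ, group C: the sum over the boxes of the gradients of the localised functions. -/

set_option autoImplicit false

open Set Filter Topology MeasureTheory
open scoped ContDiff InnerProductSpace

namespace Pool.Agent.H87.TQ

open Pool.Agent.H16 Pool.Agent.H72.CC Pool.Agent.H94.EP Pool.Agent.H87.EP Pool.Agent.H42.TQ
open Pool.Agent.H87.NS hiding c1
open Pool.Agent.H16.TU hiding Sl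
open Pool.Agent.H90.TQ (wS wS_smooth wS_one wS_zero wS_pr c2_smooth c2_01 c2_one c2_zero cb_smooth Fb_cs cb_eq)

/-- The derivative of the profile. -/
noncomputable def dT (t : ℝ) : ℝ := deriv Real.smoothTransition t

theorem sT_cd : ContDiff ℝ ∞ Real.smoothTransition := Real.smoothTransition.contDiff

theorem dT_cont : Continuous dT := sT_cd.continuous_deriv (by simp)

theorem dT_lo {t : ℝ} (h : t < 0) : dT t = 0 := by
  have h1 : Real.smoothTransition =ᶠ[𝓝 t] fun _ => (0 : ℝ) := by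
    filter_upwards [Iio_mem_nhds h] with s hs
    exact Real.smoothTransition.zero_of_nonpos (le_of_lt hs)
  unfold dT
  rw [h1.deriv_eq]
  simp

theorem dT_hi {t : ℝ} (h : 1 < t) : dT t = 0 := by
  have h1 : Real.smoothTransition =ᶠ[𝓝 t] fun _ => (1 : ℝ) := by
    filter_upwards [Ioi_mem_nhds h] with s hs
    exact Real.smoothTransition.one_of_one_le (le_of_lt hs)
  unfold dT
  rw [h1.deriv_eq]
  simp

theorem dT_bd : ∃ D : ℝ, 1 ≤ D ∧ ∀ t, |dT t| ≤ D := by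
  have hcs : HasCompactSupport dT := by
    refine HasCompactSupport.intro (isCompact_Icc (a := (0:ℝ)) (b := 1)) fun t ht => ?_
    rcases lt_or_ge t 0 with h | h
    · exact dT_lo h
    · refine dT_hi ?_
      by_contra h1
      exact ht ⟨h, not_lt.1 h1⟩
  obtain ⟨C, hC⟩ := dT_cont.bounded_above_of_compact_support hcs
  exact ⟨max 1 C, le_max_left _ _, fun t => (hC t).trans (le_max_right _ _)⟩

theorem sT_der (t : ℝ) : HasDerivAt Real.smoothTransition (dT t) t := (sT_cd.differentiable (by simp) t).hasDerivAt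

theorem pd_c2 (i : Fin 3) (x : E3) : pd i c2 x = dT (2 - 16 * rsq x) * (-16 * (2 * x 0 * e i 0 + 2 * x 1 * e i 1)) := by
  have h1 : HasFDerivAt (fun x : E3 => 2 - 16 * rsq x) (-((16 : ℝ) • fderiv ℝ rsq x)) x := ((pd_rsq i x).1.const_mul 16).const_sub 2
  have h2 := (sT_der (2 - 16 * rsq x)).comp_hasFDerivAt x h1
  have h3 : c2 = Real.smoothTransition ∘ fun x : E3 => 2 - 16 * rsq x := rfl
  unfold pd
  rw [h3, h2.fderiv]
  change dT (2 - 16 * rsq x) * (-(16 * fderiv ℝ rsq x (e i))) = _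
  rw [(pd_rsq i x).2]
  ring

theorem wS_der (t : ℝ) : HasDerivAt wS (dT (2 - t ^ 2) * (-(2 * t))) t := by
  have h1 : HasDerivAt (fun t : ℝ => 2 - t ^ 2) (-(2 * t)) t := by
    have := ((hasDerivAt_id t).pow 2).const_sub 2
    refine this.congr_deriv ?_
    simp
  exact (sT_der _).comp t h1

theorem pd_wS (L b : ℝ) (i : Fin 3) (x : E3) : pd i (fun x : E3 => wS ((x 2 - b) / L)) x =
    dT (2 - ((x 2 - b) / L) ^ 2) * (-(2 * ((x 2 - b) / L))) * (e i 2 / L) := by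
  have h1 : HasFDerivAt (fun y : E3 => (y 2 - b) / L) (L⁻¹ • (EuclideanSpace.proj 2 : E3 →L[ℝ] ℝ)) x := by
    have := ((P_coord 2 x).sub_const b).mul_const L⁻¹
    simpa only [div_eq_mul_inv] using this
  have h2 := (wS_der ((x 2 - b) / L)).comp_hasFDerivAt x h1
  unfold pd
  have h3 : (fun x : E3 => wS ((x 2 - b) / L)) = wS ∘ fun y : E3 => (y 2 - b) / L := rfl
  rw [h3, h2.fderiv]
  change dT (2 - ((x 2 - b) / L) ^ 2) * (-(2 * ((x 2 - b) / L))) * (L⁻¹ * (e i 2)) = _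
  rw [div_eq_inv_mul (e i 2)]

theorem wSx_cd (L b : ℝ) : ContDiff ℝ ∞ (fun x : E3 => wS ((x 2 - b) / L)) :=
  wS_smooth.comp (((D_coord 2).sub contDiff_const).div_const L)

theorem pd_cb (L b : ℝ) (i : Fin 3) (x : E3) : pd i (cb L b) x =
    2 * c2 x * pd i c2 x * wS ((x 2 - b) / L) + c2 x ^ 2 * (dT (2 - ((x 2 - b) / L) ^ 2) * (-(2 * ((x 2 - b) / L))) * (e i 2 / L)) := by
  have h1 : cb L b = fun x => (c2 x ^ 2) * wS ((x 2 - b) / L) := rfl
  have h2 := congrFun (A_pd_mul (c2_smooth.pow 2) (wSx_cd L b) i) x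
  rw [h1]
  refine h2.trans ?_
  rw [pd_wS, D_pdsq c2_smooth]

theorem c2_ann {x : E3} (h : rsq x < 1 / 16 ∨ 1 / 8 < rsq x) : dT (2 - 16 * rsq x) = 0 := by
  rcases h with h | h
  · exact dT_hi (by linarith)
  · exact dT_lo (by linarith)

/-- The gradient of the cutoff. -/
theorem gsq_cb : ∃ C : ℝ, 1 ≤ C ∧ ∀ (L b : ℝ), 0 < L → ∀ x : E3, (2 * L < |x 2 - b| → gsq (cb L b) x = 0 ∧ cb L b x = 0) ∧
    (1 / 8 < rsq x → gsq (cb L b) x = 0) ∧
    (rsq x < 1 / 16 → gsq (cb L b) x ≤ C / L ^ 2) ∧ gsq (cb L b) x ≤ C + C / L ^ 2 := by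
  obtain ⟨D, hD1, hD⟩ := dT_bd
  refine ⟨1000 * D ^ 2, by nlinarith, fun L b hL x => ?_⟩
  obtain ⟨t, ht⟩ : ∃ t, t = (x 2 - b) / L := ⟨_, rfl⟩
  obtain ⟨c, hc⟩ : ∃ c, c = c2 x := ⟨_, rfl⟩
  obtain ⟨w, hw⟩ : ∃ w, w = wS t := ⟨_, rfl⟩
  obtain ⟨d, hd⟩ : ∃ d, d = dT (2 - t ^ 2) := ⟨_, rfl⟩
  obtain ⟨g, hg⟩ : ∃ g, g = dT (2 - 16 * rsq x) := ⟨_, rfl⟩
  have hc01 := c2_01 x
  have hw01 : 0 ≤ w ∧ w ≤ 1 := by rw [hw]; exact ⟨wS_pr.nn t, wS_pr.le t⟩
  have q00 : (e 0 : E3) 0 = 1 := by rw [e_apply]; simp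
  have q01 : (e 0 : E3) 1 = 0 := by rw [e_apply]; simp
  have q02 : (e 0 : E3) 2 = 0 := by rw [e_apply]; simp
  have q10 : (e 1 : E3) 0 = 0 := by rw [e_apply]; simp
  have q11 : (e 1 : E3) 1 = 1 := by rw [e_apply]; simp
  have q12 : (e 1 : E3) 2 = 0 := by rw [e_apply]; simp
  have q20 : (e 2 : E3) 0 = 0 := by rw [e_apply]; simp
  have q21 : (e 2 : E3) 1 = 0 := by rw [e_apply]; simp
  have q22 : (e 2 : E3) 2 = 1 := by rw [e_apply]; simp
  have e0 : pd 0 (cb L b) x = 2 * c * (g * (-32 * x 0)) * w := by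
    rw [pd_cb, pd_c2, ← ht, ← hw, ← hg, ← hc, q00, q01, q02]
    ring
  have e1 : pd 1 (cb L b) x = 2 * c * (g * (-32 * x 1)) * w := by
    rw [pd_cb, pd_c2, ← ht, ← hw, ← hg, ← hc, q10, q11, q12]
    ring
  have e2 : pd 2 (cb L b) x = c ^ 2 * (d * (-(2 * t)) / L) := by
    rw [pd_cb, pd_c2, ← ht, ← hw, ← hg, ← hc, ← hd, q20, q21, q22]
    ring
  have eg : gsq (cb L b) x = 4096 * c ^ 2 * g ^ 2 * w ^ 2 * rsq x + c ^ 4 * (4 * d ^ 2 * t ^ 2) / L ^ 2 := by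
    have h1 : gsq (cb L b) x = pd 0 (cb L b) x ^ 2 + pd 1 (cb L b) x ^ 2 + pd 2 (cb L b) x ^ 2 := by
      unfold gsq
      rw [Fin.sum_univ_three]
    rw [h1, e0, e1, e2]
    have : rsq x = x 0 ^ 2 + x 1 ^ 2 := rfl
    rw [this]
    ring
  rw [← hc] at hc01
  have hdt : d ^ 2 * t ^ 2 ≤ 2 * D ^ 2 := by
    by_cases h : t ^ 2 ≤ 2
    · have h1 : d ^ 2 ≤ D ^ 2 := by
        rw [← sq_abs d, hd]
        exact pow_le_pow_left₀ (abs_nonneg _) (hD _) 2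
      calc d ^ 2 * t ^ 2 ≤ D ^ 2 * 2 := mul_le_mul h1 h (sq_nonneg _) (by positivity)
        _ = _ := by ring
    · rw [hd, dT_lo (by linarith)]
      linarith only [sq_nonneg D]
  have hc4 : c ^ 4 ≤ 1 := pow_le_one₀ hc01.1 hc01.2
  have hB : c ^ 4 * (4 * d ^ 2 * t ^ 2) / L ^ 2 ≤ 8 * D ^ 2 / L ^ 2 := by
    refine div_le_div_of_nonneg_right ?_ (by positivity)
    calc c ^ 4 * (4 * d ^ 2 * t ^ 2) ≤ 1 * (4 * d ^ 2 * t ^ 2) := mul_le_mul_of_nonneg_right hc4 (by positivity)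
      _ ≤ 8 * D ^ 2 := by linarith only [hdt]
  have hg2 : g ^ 2 ≤ D ^ 2 := by
    rw [← sq_abs g, hg]
    exact pow_le_pow_left₀ (abs_nonneg _) (hD _) 2
  have hL2 : 0 < L ^ 2 := by positivity
  have hmono : 8 * D ^ 2 / L ^ 2 ≤ 1000 * D ^ 2 / L ^ 2 := by gcongr; norm_num
  refine ⟨fun h => ?_, fun h => ?_, fun h => ?_, ?_⟩
  · have ht2 : 2 < t ^ 2 := by
      rw [ht, div_pow, lt_div_iff₀ hL2]
      have h7 := pow_lt_pow_left₀ h (by positivity) two_ne_zero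
      rw [sq_abs] at h7
      linarith only [hL2, h7]
    have hw0 : w = 0 := by rw [hw]; exact wS_zero ht2.le
    have hd0 : d = 0 := by rw [hd]; exact dT_lo (by linarith)
    constructor
    · rw [eg, hw0, hd0]
      ring
    · rw [cb_eq, ← ht, ← hw, hw0, mul_zero]
  · have hc0 : c = 0 := by rw [hc]; exact c2_zero h.le
    rw [eg, hc0]
    ring
  · have hg0 : g = 0 := by rw [hg]; exact c2_ann (Or.inl h)
    rw [eg, hg0]
    have : 4096 * c ^ 2 * 0 ^ 2 * w ^ 2 * rsq x = 0 := by ring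
    rw [this, zero_add]
    exact hB.trans hmono
  · have hA : 4096 * c ^ 2 * g ^ 2 * w ^ 2 * rsq x ≤ 1000 * D ^ 2 := by
      by_cases h : rsq x ≤ 1 / 8
      · have h1 : c ^ 2 ≤ 1 := pow_le_one₀ hc01.1 hc01.2
        have h2 : w ^ 2 ≤ 1 := pow_le_one₀ hw01.1 hw01.2
        have h3 : c ^ 2 * w ^ 2 ≤ 1 := mul_le_one₀ h1 (sq_nonneg _) h2
        have h4 : g ^ 2 * rsq x ≤ D ^ 2 * (1 / 8) := mul_le_mul hg2 h (rsq_nn x) (by positivity)
        have h5 : (c ^ 2 * w ^ 2) * (g ^ 2 * rsq x) ≤ 1 * (D ^ 2 * (1 / 8)) :=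
          mul_le_mul h3 h4 (mul_nonneg (sq_nonneg _) (rsq_nn x)) zero_le_one
        nlinarith only [h5]
      · have hc0 : c = 0 := by rw [hc]; exact c2_zero (by linarith)
        rw [hc0]
        linarith only [sq_nonneg D]
    rw [eg]
    linarith

end Pool.Agent.H87.TQ
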