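import Pool.Agent.H87.TQ.Gd

/-! MP_09540e_TQ, group C: the sum over the boxes of the gradients of the localised functions. -/

set_option autoImplicit false

open Set Filter Topology MeasureTheory
open scoped ContDiff InnerProductSpace

namespace Pool.Agent.H87.TQ

open Pool.Agent.H16 Pool.Agent.H72.CC Pool.Agent.H94.EP Pool.Agent.H87.EP Pool.Agent.H42.TQ
open Pool.Agent.H87.NS hiding c1
open Pool.Agent.H16.TU hiding Sl
open Pool.Agent.H90.TQ (wS wS_smooth wS_one wS_zero wS_pr c2_smooth c2_01 c2_one c2_zero cb_smooth Fb_cs cb_eq)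

/-- The inner cylinder. -/
def Cy : Set E3 := {x : E3 | rsq x ≤ 1 / 8}

theorem Cy_meas : MeasurableSet Cy := (isClosed_le rsq_cd.continuous continuous_const).measurableSet

theorem box_int {L : ℝ} (hL : 0 < L) (a b : ℝ) {f : E3 → ℝ} (hm : Measurable f) (h0 : ∀ x, 0 ≤ f x)
    (hi : Integrable (fun x => ph L a (x 2) * f x)) : IntegrableOn f {x : E3 | |x 2 - b| ≤ 2 * L} := by
  rw [IntegrableOn]
  have hp := ph_pos L a b
  refine (hi.const_mul (9 / ph L a b)).integrableOn.mono' (f := f) hm.aestronglyMeasurable ?_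
  filter_upwards [ae_restrict_mem (box_meas L b)] with x hx
  have h1 := ph_near hL a hx
  rw [Real.norm_of_nonneg (h0 x), div_mul_eq_mul_div, le_div_iff₀ hp]
  have := mul_le_mul_of_nonneg_left h1 (h0 x)
  linarith

theorem bi_le {L : ℝ} (hL : 0 < L) (a b : ℝ) {f g : E3 → ℝ} (hm : Measurable f) (h0 : ∀ x, 0 ≤ f x)
    (hi : Integrable (fun x => ph L a (x 2) * f x)) (hg0 : ∀ x, 0 ≤ g x) (hg1 : ∀ x, |x 2 - b| ≤ 2 * L → g x ≤ f x)
    (hg2 : ∀ x, 2 * L < |x 2 - b| → g x = 0) : ∫ x, g x ≤ Bi L b f := by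
  unfold Bi
  rw [← integral_indicator (box_meas L b)]
  refine integral_mono_of_nonneg (ae_of_all _ hg0) ((integrable_indicator_iff (box_meas L b)).2 (box_int hL a b hm h0 hi)) (ae_of_all _ fun x => ?_)
  by_cases h : |x 2 - b| ≤ 2 * L
  · rw [indicator_of_mem (by exact h)]
    exact hg1 x h
  · rw [hg2 x (not_le.1 h)]
    exact indicator_nonneg (fun y _ => h0 y) x

theorem A1_dom {L a : ℝ} {g : E3 → ℝ} (hm : Measurable g) (h0 : ∀ x, 0 ≤ g x) (hi : Integrable (fun x => A1 L a x * g x)) :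
    Integrable (fun x => ph L a (x 2) * Cy.indicator g x) ∧ ∫ x, ph L a (x 2) * Cy.indicator g x ≤ ∫ x, A1 L a x * g x := by
  have hle : ∀ x, ph L a (x 2) * Cy.indicator g x ≤ A1 L a x * g x := by
    intro x
    by_cases h : x ∈ Cy
    · rw [indicator_of_mem h, A1_one L a (by have : rsq x ≤ 1 / 8 := h; linarith)]
    · rw [indicator_of_notMem h, mul_zero]
      exact mul_nonneg (A1_nn L a x).1 (h0 x)
  have hnn : ∀ x, 0 ≤ ph L a (x 2) * Cy.indicator g x := fun x => mul_nonneg (ph_nn _ _ _) (indicator_nonneg (fun y _ => h0 y) x)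
  have hms : Measurable (fun x => ph L a (x 2) * Cy.indicator g x) :=
    (((ph_smooth L a).continuous.comp x2_cont).measurable).mul (hm.indicator Cy_meas)
  have hi' : Integrable (fun x => ph L a (x 2) * Cy.indicator g x) := by
    refine hi.mono' hms.aestronglyMeasurable (ae_of_all _ fun x => ?_)
    rw [Real.norm_of_nonneg (hnn x)]
    exact hle x
  exact ⟨hi', integral_mono hi' hi hle⟩

theorem GG_dom {L a : ℝ} (hL : 1 ≤ L) {v : E3 → E3} (hv : Vs v) :
    Integrable (fun x => ph L a (x 2) * Cy.indicator (gv v) x) ∧ ∫ x, ph L a (x 2) * Cy.indicator (gv v) x ≤ GG L a v := by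
  have hi := gv_int hv hL a
  have hle : ∀ x, ph L a (x 2) * Cy.indicator (gv v) x ≤ {x : E3 | rsq x < 1 / 2}.indicator (fun x => ph L a (x 2) * gv v x) x := by
    intro x
    by_cases h : x ∈ Cy
    · rw [indicator_of_mem h, indicator_of_mem (show x ∈ {x : E3 | rsq x < 1 / 2} by
        have : rsq x ≤ 1 / 8 := h
        show rsq x < 1 / 2
        linarith)]
    · rw [indicator_of_notMem h, mul_zero]
      exact indicator_nonneg (fun y _ => mul_nonneg (ph_nn _ _ _) (gv_nn v y)) x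
  have hS : MeasurableSet {x : E3 | rsq x < 1 / 2} := (isOpen_lt P_rsq_cont continuous_const).measurableSet
  have hii : Integrable ({x : E3 | rsq x < 1 / 2}.indicator (fun x => ph L a (x 2) * gv v x)) := hi.indicator hS
  have hnn : ∀ x, 0 ≤ ph L a (x 2) * Cy.indicator (gv v) x := fun x => mul_nonneg (ph_nn _ _ _) (indicator_nonneg (fun y _ => gv_nn v y) x)
  have hms : Measurable (fun x => ph L a (x 2) * Cy.indicator (gv v) x) :=
    (((ph_smooth L a).continuous.comp x2_cont).measurable).mul ((P_gv_cont hv.ax.smooth).measurable.indicator Cy_meas)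
  have hi' : Integrable (fun x => ph L a (x 2) * Cy.indicator (gv v) x) := by
    refine hii.mono' hms.aestronglyMeasurable (ae_of_all _ fun x => ?_)
    rw [Real.norm_of_nonneg (hnn x)]
    exact hle x
  refine ⟨hi', (integral_mono hi' hii hle).trans ?_⟩
  rw [integral_indicator hS]
  rfl

theorem gsq_mul {a f : E3 → ℝ} (ha : ContDiff ℝ ∞ a) (hf : ContDiff ℝ ∞ f) (x : E3) :
    gsq (fun x => a x * f x) x ≤ 2 * (a x ^ 2 * gsq f x) + 2 * (f x ^ 2 * gsq a x) := by
  unfold gsq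
  rw [Finset.mul_sum, Finset.mul_sum, Finset.mul_sum, Finset.mul_sum, ← Finset.sum_add_distrib]
  refine Finset.sum_le_sum fun i _ => ?_
  have h1 := congrFun (A_pd_mul ha hf i) x
  rw [h1]
  nlinarith [sq_nonneg (pd i a x * f x - a x * pd i f x)]

theorem gsq_nn (f : E3 → ℝ) (x : E3) : 0 ≤ gsq f x := Finset.sum_nonneg fun i _ => sq_nonneg _

/-- The majorant of the gradients. -/
noncomputable def mj (C L : ℝ) (v : E3 → E3) (x : E3) : ℝ :=
  Cy.indicator (gsq (sO v)) x + C * Cy.indicator (gv v) x + C / L ^ 2 * Cy.indicator (fun x => sO v x ^ 2) x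

theorem gsq_cont {f : E3 → ℝ} (hf : ContDiff ℝ ∞ f) : Continuous (gsq f) := by
  unfold gsq
  exact continuous_finsetSum _ fun i _ => (pd_smooth hf i).continuous.pow 2

theorem mj_meas (C L : ℝ) {v : E3 → E3} (hv : Vs v) : Measurable (mj C L v) := by
  unfold mj
  have hO := (vs_ri hv).2.2.1
  refine ((((gsq_cont hO.sm).measurable.indicator Cy_meas)).add ((((P_gv_cont hv.ax.smooth).measurable.indicator Cy_meas)).const_mul C)).add ?_
  exact ((hO.sm.continuous.pow 2).measurable.indicator Cy_meas).const_mul _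

theorem mj_nn {C : ℝ} (hC : 0 ≤ C) (L : ℝ) (v : E3 → E3) (x : E3) : 0 ≤ mj C L v x := by
  unfold mj
  have h1 : 0 ≤ Cy.indicator (gsq (sO v)) x := indicator_nonneg (fun y _ => gsq_nn _ y) x
  have h2 : 0 ≤ Cy.indicator (gv v) x := indicator_nonneg (fun y _ => gv_nn v y) x
  have h3 : 0 ≤ Cy.indicator (fun x => sO v x ^ 2) x := indicator_nonneg (fun y _ => sq_nonneg _) x
  positivity

theorem mj_int : ∃ C0 : ℝ, 1 ≤ C0 ∧ ∀ (C L a : ℝ) (v : E3 → E3), 0 ≤ C → 1 ≤ L → Vs v →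
    Integrable (fun x => ph L a (x 2) * mj C L v x) ∧ ∫ x, ph L a (x 2) * mj C L v x ≤ C0 * (1 + C) * (DO L a v + GG L a v) := by
  obtain ⟨C1, hC1, hN⟩ := NO_le
  refine ⟨1 + C1, by linarith, fun C L a v hC hL hv => ?_⟩
  have hO := (vs_ri hv).2.2.1
  have sA := E_ri (A1_ri hL a)
  have sO' := E_ri hO
  obtain ⟨i1, l1⟩ := A1_dom (L := L) (a := a) (gsq_cont hO.sm).measurable (gsq_nn (sO v)) (E_gsqI sA sO')
  obtain ⟨i2, l2⟩ := GG_dom (a := a) hL hv
  obtain ⟨i3, l3⟩ := A1_dom (L := L) (a := a) (g := fun x => sO v x ^ 2) (hO.sm.continuous.pow 2).measurable (fun x => sq_nonneg _) (E_sq sA sO')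
  have e : (fun x => ph L a (x 2) * mj C L v x) = fun x => ph L a (x 2) * Cy.indicator (gsq (sO v)) x +
      C * (ph L a (x 2) * Cy.indicator (gv v) x) + C / L ^ 2 * (ph L a (x 2) * Cy.indicator (fun x => sO v x ^ 2) x) := by
    funext x
    unfold mj
    ring
  have j : Integrable (fun x => ph L a (x 2) * Cy.indicator (gsq (sO v)) x +
      C * (ph L a (x 2) * Cy.indicator (gv v) x) + C / L ^ 2 * (ph L a (x 2) * Cy.indicator (fun x => sO v x ^ 2) x)) :=
    (i1.add (i2.const_mul C)).add (i3.const_mul (C / L ^ 2))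
  rw [e]
  refine ⟨j, ?_⟩
  rw [← (F_sum3 i1 (i2.const_mul C) (i3.const_mul (C / L ^ 2))).2, integral_const_mul, integral_const_mul]
  have hN' := hN L a v hL hv
  have hDO : 0 ≤ DO L a v := (E_nn (L := L) a v).1
  have hGG : 0 ≤ GG L a v := (E_nn (L := L) a v).2
  have h4 : C / L ^ 2 ≤ C := div_le_self hC (by nlinarith)
  have h5 : 0 ≤ C / L ^ 2 := by positivity
  have e1 : ∫ x, A1 L a x * gsq (sO v) x = DO L a v := rfl
  have e3 : ∫ x, A1 L a x * sO v x ^ 2 = NO L a v := rfl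
  rw [e1] at l1
  rw [e3] at l3
  have hNO0 : 0 ≤ NO L a v := integral_nonneg fun x => mul_nonneg (A1_nn L a x).1 (sq_nonneg _)
  have h6 : C / L ^ 2 * ∫ x, ph L a (x 2) * Cy.indicator (fun x => sO v x ^ 2) x ≤ C * (C1 * (DO L a v + GG L a v)) :=
    calc _ ≤ C / L ^ 2 * NO L a v := mul_le_mul_of_nonneg_left l3 h5
      _ ≤ C * NO L a v := mul_le_mul_of_nonneg_right h4 hNO0
      _ ≤ _ := mul_le_mul_of_nonneg_left hN' hC
  have h7 : C * ∫ x, ph L a (x 2) * Cy.indicator (gv v) x ≤ C * GG L a v := mul_le_mul_of_nonneg_left l2 hC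
  have h8 : (0:ℝ) ≤ C1 := by linarith
  nlinarith [mul_nonneg hC hDO, mul_nonneg hC hGG, mul_nonneg h8 hDO, mul_nonneg h8 hGG]

/-- The gradient of a localised function. -/
theorem gsq_Fb : ∃ C : ℝ, 1 ≤ C ∧ ∀ (L b : ℝ) (v : E3 → E3), 0 < L → Vs v → ∀ x, (2 * L < |x 2 - b| → gsq (Fb L b v) x = 0) ∧
    gsq (Fb L b v) x ≤ 2 * mj C L v x := by
  obtain ⟨C, hC1, hC⟩ := gsq_cb
  refine ⟨64 * C, by linarith, fun L b v hL hv x => ?_⟩
  have hO := (vs_ri hv).2.2.1
  obtain ⟨c1, c2', c3, c4⟩ := hC L b hL x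
  have hm := gsq_mul (cb_smooth L b) hO.sm x
  have e0 : gsq (Fb L b v) x = gsq (fun x => cb L b x * sO v x) x := rfl
  have hcb : 0 ≤ cb L b x ∧ cb L b x ≤ 1 := by
    rw [cb_eq]
    have h1 := c2_01 x
    have h2 := wS_pr.nn ((x 2 - b) / L)
    have h3 := wS_pr.le ((x 2 - b) / L)
    exact ⟨by positivity, mul_le_one₀ (pow_le_one₀ h1.1 h1.2) h2 h3⟩
  have hcb2 : cb L b x ^ 2 ≤ 1 := pow_le_one₀ hcb.1 hcb.2
  have hg0 := gsq_nn (sO v) x
  have hL2 : 0 < L ^ 2 := by positivity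
  constructor
  · intro h
    obtain ⟨c11, c12⟩ := c1 h
    rw [c11, c12] at hm
    have : gsq (Fb L b v) x ≤ 0 := by
      rw [e0]
      refine hm.trans (le_of_eq ?_)
      ring
    exact le_antisymm this (gsq_nn _ _)
  · rw [e0]
    refine hm.trans ?_
    unfold mj
    by_cases hx : x ∈ Cy
    · rw [indicator_of_mem hx, indicator_of_mem hx, indicator_of_mem hx]
      have hx8 : rsq x ≤ 1 / 8 := hx
      have hOO : rsq x * sO v x ^ 2 ≤ 4 * gv v x := gv_O hv x
      have hgv := gv_nn v x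
      have key : sO v x ^ 2 * gsq (cb L b) x ≤ 64 * C * gv v x + C / L ^ 2 * sO v x ^ 2 := by
        by_cases h16 : rsq x < 1 / 16
        · have h1 := mul_le_mul_of_nonneg_left (c3 h16) (sq_nonneg (sO v x))
          have h2 : 0 ≤ 64 * C * gv v x := by positivity
          calc _ ≤ sO v x ^ 2 * (C / L ^ 2) := h1
            _ = C / L ^ 2 * sO v x ^ 2 := by ring
            _ ≤ _ := by linarith
        · have h1 := mul_le_mul_of_nonneg_left c4 (sq_nonneg (sO v x))
          have h2 : sO v x ^ 2 ≤ 64 * gv v x := by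
            have h3 : 1 / 16 * sO v x ^ 2 ≤ rsq x * sO v x ^ 2 := mul_le_mul_of_nonneg_right (not_lt.1 h16) (sq_nonneg _)
            linarith
          have h3 : C * sO v x ^ 2 ≤ C * (64 * gv v x) := mul_le_mul_of_nonneg_left h2 (by linarith)
          calc _ ≤ sO v x ^ 2 * (C + C / L ^ 2) := h1
            _ = C * sO v x ^ 2 + C / L ^ 2 * sO v x ^ 2 := by ring
            _ ≤ _ := by linarith
      have h5 : cb L b x ^ 2 * gsq (sO v) x ≤ gsq (sO v) x := mul_le_of_le_one_left hg0 hcb2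
      have h6 : C / L ^ 2 * sO v x ^ 2 ≤ 64 * C / L ^ 2 * sO v x ^ 2 := by
        refine mul_le_mul_of_nonneg_right ?_ (sq_nonneg _)
        refine div_le_div_of_nonneg_right ?_ hL2.le
        linarith
      linarith
    · have hx8 : 1 / 8 < rsq x := by
        by_contra h
        exact hx (not_lt.1 h)
      rw [indicator_of_notMem hx, indicator_of_notMem hx, indicator_of_notMem hx, c2' hx8]
      have : cb L b x = 0 := by rw [cb_eq, c2_zero hx8.le]; ring
      rw [this]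
      simp

/-- Gradient sum. -/
theorem grad_sum : ∃ C : ℝ, 1 ≤ C ∧ ∀ (L a b : ℝ) (v : E3 → E3), 1 ≤ L → Vs v →
    ∫ x, gsq (Fb L b v) x ≤ 2 * Bi L b (mj C L v) := by
  obtain ⟨C, hC1, hC⟩ := gsq_Fb
  obtain ⟨C0, hC01, h0⟩ := mj_int
  refine ⟨C, hC1, fun L a b v hL hv => ?_⟩
  have hL0 : 0 < L := by linarith
  have hC0 : 0 ≤ C := by linarith
  have h1 := bi_le hL0 a b (f := fun x => 2 * mj C L v x) (g := gsq (Fb L b v)) ((mj_meas C L hv).const_mul 2)
    (fun x => mul_nonneg (by norm_num) (mj_nn hC0 L v x)) ?_ (gsq_nn _) (fun x _ => (hC L b v hL0 hv x).2) (fun x h => (hC L b v hL0 hv x).1 h)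
  · refine h1.trans (le_of_eq ?_)
    unfold Bi
    rw [integral_const_mul]
  · have := ((h0 C L a v hC0 hL hv).1).const_mul 2
    refine this.congr (ae_of_all _ fun x => ?_)
    show 2 * (ph L a (x 2) * mj C L v x) = ph L a (x 2) * (2 * mj C L v x)
    ring

end Pool.Agent.H87.TQ
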