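import Pool.Agent.H87.TQ.Wz
import Pool.Agent.H87.TQ.Lh
import Pool.Agent.H42.TQ.T4
import Pool.Agent.H90.TQ.Fu

/-! MP_09540e_TQ, group C: the integral of the weight of the transport error. -/

set_option autoImplicit false

open Set Filter Topology MeasureTheory
open scoped ContDiff InnerProductSpace

namespace Pool.Agent.H87.TQ

open Pool.Agent.H16 Pool.Agent.H72.CC Pool.Agent.H94.EP Pool.Agent.H87.EP Pool.Agent.H42.TQ
open Pool.Agent.H87.NS hiding c1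
open Pool.Agent.H16.TU hiding Sl
open Pool.Agent.H90.TQ (wS wS_smooth wS_one wS_zero wS_pr c2_smooth c2_01 c2_one c2_zero cb_smooth Fb_cs cb_eq fub fub_w fib_zero Fb_out rsq_pt sq2_nn sq2_cont)

/-- The horizontal disc. -/
def Dq : Set (ℝ × ℝ) := {q | sq2 q ≤ 1 / 8}

theorem Dq_meas : MeasurableSet Dq := (isClosed_le sq2_cont continuous_const).measurableSet

theorem bi_q {L b : ℝ} (hL : 0 < L) {h : ℝ × ℝ → ℝ} {ψ : E3 → ℝ}
    (hi : IntegrableOn (Cy.indicator (fun x => h (x 0, x 1) * ψ x ^ 2)) {x : E3 | |x 2 - b| ≤ 2 * L}) :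
    Integrable (Dq.indicator (fun q => h q * Nb b (2 * L) ψ q ^ 2)) ∧
      ∫ q, Dq.indicator (fun q => h q * Nb b (2 * L) ψ q ^ 2) q = Bi L b (Cy.indicator (fun x => h (x 0, x 1) * ψ x ^ 2)) := by
  obtain ⟨H, hH⟩ : ∃ H : E3 → ℝ, H = indicator {x : E3 | |x 2 - b| ≤ 2 * L} (Cy.indicator (fun x => h (x 0, x 1) * ψ x ^ 2)) := ⟨_, rfl⟩
  have hHi : Integrable H := by
    rw [hH]
    exact (integrable_indicator_iff (box_meas L b)).2 hi
  have e : (fun q : ℝ × ℝ => ∫ z, H (pt q z)) = Dq.indicator (fun q => h q * Nb b (2 * L) ψ q ^ 2) := by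
    funext q
    by_cases hq : sq2 q ≤ 1 / 8
    · rw [indicator_of_mem (show q ∈ Dq from hq)]
      have e1 : (fun z => H (pt q z)) = (Icc (b - 2 * L) (b + 2 * L)).indicator (fun z => h q * ψ (pt q z) ^ 2) := by
        funext z
        rw [hH]
        by_cases hz : |z - b| ≤ 2 * L
        · rw [indicator_of_mem (show pt q z ∈ {x : E3 | |x 2 - b| ≤ 2 * L} from hz), indicator_of_mem (show pt q z ∈ Cy from hq),
            indicator_of_mem]
          · rfl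
          · rw [abs_le] at hz
            exact ⟨by linarith [hz.1], by linarith [hz.2]⟩
        · rw [indicator_of_notMem (show pt q z ∉ {x : E3 | |x 2 - b| ≤ 2 * L} from hz), indicator_of_notMem]
          intro hz'
          exact hz (abs_le.2 ⟨by linarith [hz'.1], by linarith [hz'.2]⟩)
      rw [e1, integral_indicator measurableSet_Icc, integral_const_mul]
      congr 1
      unfold Nb
      rw [Real.sq_sqrt, intervalIntegral.integral_of_le (by linarith), integral_Icc_eq_integral_Ioc]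
      exact intervalIntegral.integral_nonneg (by linarith) fun z _ => sq_nonneg _
    · rw [indicator_of_notMem (show q ∉ Dq from hq)]
      have e1 : (fun z => H (pt q z)) = fun _ => 0 := by
        funext z
        rw [hH]
        by_cases hz : |z - b| ≤ 2 * L
        · rw [indicator_of_mem (show pt q z ∈ {x : E3 | |x 2 - b| ≤ 2 * L} from hz), indicator_of_notMem (show pt q z ∉ Cy from hq)]
        · rw [indicator_of_notMem (show pt q z ∉ {x : E3 | |x 2 - b| ≤ 2 * L} from hz)]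
      rw [e1, integral_zero]
  obtain ⟨h1, h2⟩ := fub hHi
  rw [e] at h1 h2
  refine ⟨h1, h2.trans ?_⟩
  rw [hH, integral_indicator (box_meas L b)]
  rfl

theorem tr_pw {s r2 σ A B D F F0 F1 F2 : ℝ} (hs : 0 ≤ s) (hr : 0 < r2) (hσ : 0 < σ) (hA : 0 ≤ A) (hF2 : 0 ≤ F2) :
    (s * A * F2 + F * (s * B + D) + √s * D * (F0 + F1)) / (s + r2) ≤
      (A ^ 2 + σ * (s * B ^ 2) + (σ + 2) * (1 / (s + r2) * D ^ 2) + (F0 ^ 2 + F1 ^ 2 + F2 ^ 2) + 2 / σ * (1 / (s + r2) * F ^ 2)) / 2 := by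
  obtain ⟨w, hw⟩ : ∃ w, w = s + r2 := ⟨_, rfl⟩
  have hw0 : 0 < w := by rw [hw]; linarith
  have hsw : s ≤ w := by rw [hw]; linarith
  rw [← hw, div_le_iff₀ hw0]
  obtain ⟨ρ, hρ⟩ : ∃ ρ, ρ = √s := ⟨_, rfl⟩
  have hρ2 : ρ ^ 2 = s := by rw [hρ]; exact Real.sq_sqrt hs
  rw [← hρ]
  obtain ⟨i, hi⟩ : ∃ i, i = 1 / σ := ⟨_, rfl⟩
  have hi0 : 0 < i := by rw [hi]; positivity
  have hiσ : i * σ = 1 := by rw [hi]; field_simp
  have e : (A ^ 2 + σ * (s * B ^ 2) + (σ + 2) * (1 / w * D ^ 2) + (F0 ^ 2 + F1 ^ 2 + F2 ^ 2) + 2 / σ * (1 / w * F ^ 2)) / 2 * w =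
      (w * (A ^ 2 + F2 ^ 2) + σ * (s * w) * B ^ 2 + (σ + 2) * D ^ 2 + w * (F0 ^ 2 + F1 ^ 2) + 2 * i * F ^ 2) / 2 := by
    rw [hi]
    field_simp
    ring
  rw [e]
  have t1 : s * A * F2 ≤ w * (A ^ 2 + F2 ^ 2) / 2 := by
    have h1 : s * (A * F2) ≤ w * (A * F2) := mul_le_mul_of_nonneg_right hsw (mul_nonneg hA hF2)
    nlinarith [sq_nonneg (A - F2)]
  have t2 : F * (s * B) ≤ (σ * (s * w) * B ^ 2 + i * F ^ 2) / 2 := by
    have h1 : σ * (s * s) * B ^ 2 ≤ σ * (s * w) * B ^ 2 := by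
      have : s * s ≤ s * w := mul_le_mul_of_nonneg_left hsw hs
      exact mul_le_mul_of_nonneg_right (mul_le_mul_of_nonneg_left this hσ.le) (sq_nonneg _)
    have h2 : 0 ≤ i * (σ * (s * B) - F) ^ 2 := by positivity
    have h3 : i * (σ * (s * B) - F) ^ 2 = (i * σ) * σ * (s * B) ^ 2 - 2 * (i * σ) * (s * B) * F + i * F ^ 2 := by ring
    rw [h3, hiσ] at h2
    nlinarith
  have t3 : F * D ≤ (σ * D ^ 2 + i * F ^ 2) / 2 := by
    have h2 : 0 ≤ i * (σ * D - F) ^ 2 := by positivity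
    have h3 : i * (σ * D - F) ^ 2 = (i * σ) * σ * D ^ 2 - 2 * (i * σ) * D * F + i * F ^ 2 := by ring
    rw [h3, hiσ] at h2
    nlinarith
  have t4 : ∀ G : ℝ, ρ * D * G ≤ (D ^ 2 + w * G ^ 2) / 2 := by
    intro G
    have h1 : s * G ^ 2 ≤ w * G ^ 2 := mul_le_mul_of_nonneg_right hsw (sq_nonneg _)
    have h2 := sq_nonneg (D - ρ * G)
    have h3 : (ρ * G) ^ 2 = s * G ^ 2 := by rw [mul_pow, hρ2]
    nlinarith
  have t5 := t4 F0
  have t6 := t4 F1
  nlinarith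

/-- The majorant of the fields. -/
noncomputable def fW (σ r2 : ℝ) (v : E3 → E3) (x : E3) : ℝ :=
  Cy.indicator (fun x => dh (sW v) x ^ 2) x + σ * Cy.indicator (fun x => rsq x * dh (pd 2 (sW v)) x ^ 2) x +
    (σ + 2) * Cy.indicator (fun x => pd 2 (sW v) x ^ 2 / (rsq x + r2)) x

theorem fw_sum : ∃ C : ℝ, 1 ≤ C ∧ ∀ (L a σ r2 : ℝ) (v : E3 → E3), C ≤ L → 0 < r2 → r2 ≤ 1 → 1 ≤ σ → Vs v →
    Measurable (fW σ r2 v) ∧ (∀ x, 0 ≤ fW σ r2 v x) ∧ Integrable (fun x => ph L a (x 2) * fW σ r2 v x) ∧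
    ∫ x, ph L a (x 2) * fW σ r2 v x ≤ C * σ * (1 + Real.log (1 / r2)) * (DO L a v + GG L a v) := by
  obtain ⟨C1, hC1, h1⟩ := wz_sum
  obtain ⟨C2, hC2, h2⟩ := w_sum
  refine ⟨3 * C1 + 2 * C2, by linarith, fun L a σ r2 v hCL hr hr1 hσ hv => ?_⟩
  have hL : 1 ≤ L := by linarith
  obtain ⟨i1, l1⟩ := h1 L a r2 v (by linarith) hr hr1 hv
  obtain ⟨⟨i2, l2⟩, ⟨i3, l3⟩⟩ := h2 L a v (by linarith) hv
  have h0 : ∀ x : E3, 0 < rsq x + r2 := fun x => by have := rsq_nn x; linarith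
  have hW := (vs_ri hv).2.1
  have m1 : Measurable (Cy.indicator (fun x => dh (sW v) x ^ 2)) := (hW.dh.sm.continuous.pow 2).measurable.indicator Cy_meas
  have m2 : Measurable (Cy.indicator (fun x => rsq x * dh (pd 2 (sW v)) x ^ 2)) :=
    (rsq_cd.continuous.mul (hW.pd2.dh.sm.continuous.pow 2)).measurable.indicator Cy_meas
  have m3 : Measurable (Cy.indicator (fun x => pd 2 (sW v) x ^ 2 / (rsq x + r2))) :=
    ((hW.pd2.sm.continuous.pow 2).div (rsq_cd.continuous.add continuous_const) fun x => (h0 x).ne').measurable.indicator Cy_meas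
  have n1 : ∀ x, 0 ≤ Cy.indicator (fun x => dh (sW v) x ^ 2) x := fun x => indicator_nonneg (fun y _ => sq_nonneg _) x
  have n2 : ∀ x, 0 ≤ Cy.indicator (fun x => rsq x * dh (pd 2 (sW v)) x ^ 2) x := fun x => indicator_nonneg (fun y _ => mul_nonneg (rsq_nn y) (sq_nonneg _)) x
  have n3 : ∀ x, 0 ≤ Cy.indicator (fun x => pd 2 (sW v) x ^ 2 / (rsq x + r2)) x := fun x => indicator_nonneg (fun y _ => div_nonneg (sq_nonneg _) (h0 y).le) x
  have e : (fun x => ph L a (x 2) * fW σ r2 v x) = fun x => (ph L a (x 2) * Cy.indicator (fun x => dh (sW v) x ^ 2) x +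
      σ * (ph L a (x 2) * Cy.indicator (fun x => rsq x * dh (pd 2 (sW v)) x ^ 2) x)) +
      (σ + 2) * (ph L a (x 2) * Cy.indicator (fun x => pd 2 (sW v) x ^ 2 / (rsq x + r2)) x) := by
    funext x
    unfold fW
    ring
  refine ⟨(m1.add (m2.const_mul σ)).add (m3.const_mul (σ + 2)), fun x => ?_, ?_, ?_⟩
  · have h3 := n1 x
    have h4 := n2 x
    have h5 := n3 x
    unfold fW
    positivity
  · rw [e]
    exact (i2.add (i3.const_mul σ)).add (i1.const_mul (σ + 2))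
  · have ij : Integrable (fun x => ph L a (x 2) * Cy.indicator (fun x => dh (sW v) x ^ 2) x +
        σ * (ph L a (x 2) * Cy.indicator (fun x => rsq x * dh (pd 2 (sW v)) x ^ 2) x)) := i2.add (i3.const_mul σ)
    rw [e, integral_add ij (i1.const_mul (σ + 2)), integral_add i2 (i3.const_mul σ), integral_const_mul, integral_const_mul]
    have h7 := (E_nn (L := L) a v)
    have h8 : 0 ≤ DO L a v + GG L a v := add_nonneg h7.1 h7.2
    obtain ⟨E, hE⟩ : ∃ E, E = DO L a v + GG L a v := ⟨_, rfl⟩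
    rw [← hE] at l1 l2 l3 h8 ⊢
    obtain ⟨l, hl⟩ : ∃ l, l = Real.log (1 / r2) := ⟨_, rfl⟩
    have hl0 : 0 ≤ l := by
      rw [hl]
      exact Real.log_nonneg (by rw [le_div_iff₀ hr]; linarith)
    rw [← hl] at l1 ⊢
    have k1 : (σ + 2) * (C1 * (1 + l) * E) ≤ 3 * σ * (C1 * (1 + l) * E) := mul_le_mul_of_nonneg_right (by linarith) (by positivity)
    have k2 : (σ + 2) * (∫ x, ph L a (x 2) * Cy.indicator (fun x => pd 2 (sW v) x ^ 2 / (rsq x + r2)) x) ≤ (σ + 2) * (C1 * (1 + l) * E) :=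
      mul_le_mul_of_nonneg_left l1 (by linarith)
    have k3 : σ * (∫ x, ph L a (x 2) * Cy.indicator (fun x => rsq x * dh (pd 2 (sW v)) x ^ 2) x) ≤ σ * (C2 * E) :=
      mul_le_mul_of_nonneg_left l3 (by linarith)
    have k4 : C2 * E ≤ σ * (C2 * E) := le_mul_of_one_le_left (by positivity) hσ
    have k5 : σ * (C2 * E) ≤ σ * (C2 * E) * (1 + l) := le_mul_of_one_le_right (by positivity) (by linarith)
    have e9 : (3 * C1 + 2 * C2) * σ * (1 + l) * E = 3 * σ * (C1 * (1 + l) * E) + 2 * (σ * (C2 * E) * (1 + l)) := by ring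
    rw [e9]
    linarith

/-- The integral over the plane. -/
theorem tr_q {L b r2 σ Λ : ℝ} {v : E3 → E3} (hL : 1 ≤ L) (hr : 0 < r2) (hσ : 0 < σ) (hv : Vs v) (hΛ : 1 + Real.log ((1 + r2) / r2) ≤ Λ)
    (i1 : IntegrableOn (Cy.indicator (fun x => dh (sW v) x ^ 2)) {x : E3 | |x 2 - b| ≤ 2 * L})
    (i2 : IntegrableOn (Cy.indicator (fun x => rsq x * dh (pd 2 (sW v)) x ^ 2)) {x : E3 | |x 2 - b| ≤ 2 * L})
    (i3 : IntegrableOn (Cy.indicator (fun x => pd 2 (sW v) x ^ 2 / (rsq x + r2))) {x : E3 | |x 2 - b| ≤ 2 * L}) :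
    ∫ q, Tr r2 b (2 * L) v (Fb L b v) q ≤ (Bi L b (fW σ r2 v) + (1 + 2 / σ * Λ ^ 2) * ∫ x, gsq (Fb L b v) x) / 2 := by
  have hL0 : 0 < L := by linarith
  have hF := Fb_cs hL0 b hv
  obtain ⟨F, hFe⟩ : ∃ F, F = Fb L b v := ⟨_, rfl⟩
  have hFo : ∀ x, 1 / 8 ≤ rsq x → F x = 0 := fun x hx => by rw [hFe]; exact Fb_out hx
  rw [← hFe] at hF ⊢
  have hw0 : ∀ q : ℝ × ℝ, 0 < sq2 q + r2 := fun q => by have := sq2_nn q; linarith
  have hx0 : ∀ x : E3, 0 < rsq x + r2 := fun x => by have := rsq_nn x; linarith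
  have hdo : ∀ (i : Fin 3) (x : E3), 1 / 8 < rsq x → pd i F x = 0 := by
    intro i x hx
    have hev : F =ᶠ[𝓝 x] fun _ => 0 := by
      have ho : IsOpen {y : E3 | 1 / 8 < rsq y} := isOpen_lt continuous_const rsq_cd.continuous
      filter_upwards [ho.mem_nhds hx] with y hy
      exact hFo y (le_of_lt hy)
    unfold pd
    rw [hev.fderiv_eq]
    simp
  have hfo : ∀ q : ℝ × ℝ, q ∉ Dq → fib F q = 0 ∧ fib (pd 0 F) q = 0 ∧ fib (pd 1 F) q = 0 ∧ fib (pd 2 F) q = 0 := by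
    intro q hq
    have hq' : 1 / 8 < sq2 q := not_le.1 hq
    exact ⟨fib_zero hF fun z => hFo _ (by rw [rsq_pt]; exact hq'.le), fib_zero (hF.pd 0) fun z => hdo 0 _ (by rw [rsq_pt]; exact hq'),
      fib_zero (hF.pd 1) fun z => hdo 1 _ (by rw [rsq_pt]; exact hq'), fib_zero (hF.pd 2) fun z => hdo 2 _ (by rw [rsq_pt]; exact hq')⟩
  have j : ∀ {G : E3 → ℝ}, Cs G → Integrable (fun q => ‖fib G q‖ ^ 2) ∧ ∫ q, ‖fib G q‖ ^ 2 = ∫ x, G x ^ 2 := by
    intro G hG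
    have hi : Integrable (fun x => G x ^ 2) := Continuous.integrable_of_hasCompactSupport (Cs_sq hG).cont (Cs_sq hG).cs
    obtain ⟨h1, h2⟩ := fub hi
    have e : (fun q : ℝ × ℝ => ∫ z, G (pt q z) ^ 2) = fun q => ‖fib G q‖ ^ 2 := funext fun q => (fib_norm hG q).symm
    rw [e] at h1 h2
    exact ⟨h1, h2⟩
  obtain ⟨k1, l1⟩ := bi_q (h := fun _ => 1) (ψ := dh (sW v)) hL0 (b := b) (by simpa only [one_mul] using i1)
  obtain ⟨k2, l2⟩ := bi_q (h := sq2) (ψ := dh (pd 2 (sW v))) hL0 (b := b) i2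
  have e3 : (fun x : E3 => (fun q : ℝ × ℝ => 1 / (sq2 q + r2)) (x 0, x 1) * pd 2 (sW v) x ^ 2) = fun x => pd 2 (sW v) x ^ 2 / (rsq x + r2) := by
    funext x
    exact one_div_mul_eq_div _ _
  obtain ⟨k3, l3⟩ := bi_q (h := fun q => 1 / (sq2 q + r2)) (ψ := pd 2 (sW v)) hL0 (b := b) (by rw [e3]; exact i3)
  rw [e3] at l3
  obtain ⟨k4, l4⟩ := j (hF.pd 0)
  obtain ⟨k5, l5⟩ := j (hF.pd 1)
  obtain ⟨k6, l6⟩ := j (hF.pd 2)
  have hi7 : Integrable (fun x : E3 => (fun q : ℝ × ℝ => 1 / (sq2 q + r2)) (x 0, x 1) * F x ^ 2) := by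
    refine Cs_cont_int (Cs_sq hF) (G := fun x : E3 => 1 / (rsq x + r2)) ?_
    exact continuous_const.div (rsq_cd.continuous.add continuous_const) fun x => (hx0 x).ne'
  obtain ⟨k7, l7⟩ := fub_w (F := fun x => F x ^ 2) (fun q => 1 / (sq2 q + r2)) hi7
  have e7 : (fun q : ℝ × ℝ => (fun q => 1 / (sq2 q + r2)) q * ∫ z, F (pt q z) ^ 2) = fun q => 1 / (sq2 q + r2) * ‖fib F q‖ ^ 2 := by
    funext q
    rw [fib_norm hF q]
  have l7' : ∫ q : ℝ × ℝ, 1 / (sq2 q + r2) * ‖fib F q‖ ^ 2 = ∫ x, F x ^ 2 / (rsq x + r2) := by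
    rw [← e7, l7]
    congr 1
    funext x
    exact one_div_mul_eq_div _ _
  have k7' : Integrable (fun q : ℝ × ℝ => 1 / (sq2 q + r2) * ‖fib F q‖ ^ 2) := by
    rw [← e7]
    exact k7
  obtain ⟨A, hA⟩ : ∃ A : ℝ × ℝ → ℝ, A = fun q => (Dq.indicator (fun q => (1 : ℝ) * Nb b (2 * L) (dh (sW v)) q ^ 2) q +
      σ * Dq.indicator (fun q => sq2 q * Nb b (2 * L) (dh (pd 2 (sW v))) q ^ 2) q) +
      (σ + 2) * Dq.indicator (fun q => 1 / (sq2 q + r2) * Nb b (2 * L) (pd 2 (sW v)) q ^ 2) q := ⟨_, rfl⟩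
  obtain ⟨B, hB⟩ : ∃ B : ℝ × ℝ → ℝ, B = fun q => ((‖fib (pd 0 F) q‖ ^ 2 + ‖fib (pd 1 F) q‖ ^ 2) + ‖fib (pd 2 F) q‖ ^ 2) +
      2 / σ * (1 / (sq2 q + r2) * ‖fib F q‖ ^ 2) := ⟨_, rfl⟩
  have k12 : Integrable (fun q : ℝ × ℝ => Dq.indicator (fun q => (1 : ℝ) * Nb b (2 * L) (dh (sW v)) q ^ 2) q +
      σ * Dq.indicator (fun q => sq2 q * Nb b (2 * L) (dh (pd 2 (sW v))) q ^ 2) q) := k1.add (k2.const_mul σ)
  have kA : Integrable A := by
    rw [hA]
    exact k12.add (k3.const_mul (σ + 2))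
  have k45 : Integrable (fun q : ℝ × ℝ => ‖fib (pd 0 F) q‖ ^ 2 + ‖fib (pd 1 F) q‖ ^ 2) := k4.add k5
  have k456 : Integrable (fun q : ℝ × ℝ => (‖fib (pd 0 F) q‖ ^ 2 + ‖fib (pd 1 F) q‖ ^ 2) + ‖fib (pd 2 F) q‖ ^ 2) := k45.add k6
  have kB : Integrable B := by
    rw [hB]
    exact k456.add (k7'.const_mul (2 / σ))
  have lA : ∫ q, A q = Bi L b (fW σ r2 v) := by
    rw [hA, integral_add k12 (k3.const_mul (σ + 2)), integral_add k1 (k2.const_mul σ), integral_const_mul, integral_const_mul, l1, l2, l3]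
    unfold Bi fW
    have m12 : IntegrableOn (fun x : E3 => Cy.indicator (fun x => dh (sW v) x ^ 2) x + σ * Cy.indicator (fun x => rsq x * dh (pd 2 (sW v)) x ^ 2) x)
        {x : E3 | |x 2 - b| ≤ 2 * L} := i1.add (i2.const_mul σ)
    rw [integral_add m12 (i3.const_mul (σ + 2)), integral_add i1 (i2.const_mul σ), integral_const_mul, integral_const_mul]
    simp only [one_mul]
    rfl
  have hgi : ∀ i : Fin 3, Integrable (fun x => pd i F x ^ 2) := fun i =>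
    Continuous.integrable_of_hasCompactSupport (Cs_sq (hF.pd i)).cont (Cs_sq (hF.pd i)).cs
  have lg : ∫ x, gsq F x = (∫ x, pd 0 F x ^ 2) + (∫ x, pd 1 F x ^ 2) + (∫ x, pd 2 F x ^ 2) := by
    have e : gsq F = fun x => (pd 0 F x ^ 2 + pd 1 F x ^ 2) + pd 2 F x ^ 2 := by
      funext x
      unfold gsq
      rw [Fin.sum_univ_three]
    have i01 : Integrable (fun x => pd 0 F x ^ 2 + pd 1 F x ^ 2) := (hgi 0).add (hgi 1)
    rw [e, integral_add i01 (hgi 2), integral_add (hgi 0) (hgi 1)]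
  have hΛ0 : 0 ≤ 1 + Real.log ((1 + r2) / r2) := by
    have : 0 ≤ Real.log ((1 + r2) / r2) := Real.log_nonneg (by rw [le_div_iff₀ hr]; linarith)
    linarith
  have hg0 : ∀ i : Fin 3, 0 ≤ ∫ x, pd i F x ^ 2 := fun i => integral_nonneg fun x => sq_nonneg _
  have hlog : ∫ x, F x ^ 2 / (rsq x + r2) ≤ Λ ^ 2 * ∫ x, gsq F x := by
    refine (logH hF (fun x hx => hFo x (by linarith)) hr).trans ?_
    rw [integral_add (hgi 0) (hgi 1), lg]
    have h1 := hg0 0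
    have h2 := hg0 1
    have h3 := hg0 2
    refine mul_le_mul (pow_le_pow_left₀ hΛ0 hΛ 2) (by linarith) (by linarith) (by positivity)
  have lB : ∫ q, B q ≤ (1 + 2 / σ * Λ ^ 2) * ∫ x, gsq F x := by
    rw [hB, integral_add k456 (k7'.const_mul (2 / σ)), integral_add k45 k6, integral_add k4 k5, integral_const_mul, l4, l5, l6, l7', ← lg]
    have h1 := mul_le_mul_of_nonneg_left hlog (show 0 ≤ 2 / σ by positivity)
    linarith
  have hpw : ∀ q : ℝ × ℝ, Tr r2 b (2 * L) v F q ≤ (A q + B q) / 2 := by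
    intro q
    rw [hA, hB]
    dsimp only
    by_cases hq : q ∈ Dq
    · rw [indicator_of_mem hq, indicator_of_mem hq, indicator_of_mem hq]
      have h := tr_pw (s := sq2 q) (r2 := r2) (σ := σ) (A := Nb b (2 * L) (dh (sW v)) q) (B := Nb b (2 * L) (dh (pd 2 (sW v))) q)
        (D := Nb b (2 * L) (pd 2 (sW v)) q) (F := ‖fib F q‖) (F0 := ‖fib (pd 0 F) q‖) (F1 := ‖fib (pd 1 F) q‖) (F2 := ‖fib (pd 2 F) q‖)
        (sq2_nn q) hr hσ (Real.sqrt_nonneg _) (norm_nonneg _)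
      unfold Tr
      refine h.trans (le_of_eq ?_)
      ring
    · obtain ⟨f1, f2, f3, f4⟩ := hfo q hq
      unfold Tr
      rw [indicator_of_notMem hq, indicator_of_notMem hq, indicator_of_notMem hq, f1, f2, f3, f4]
      simp
  have hTi := (Tr_int (b := b) hr (show 0 < 2 * L by linarith) hv hF)
  have hle : ∫ q, Tr r2 b (2 * L) v F q ≤ ∫ q, (A q + B q) / 2 := by
    refine integral_mono_of_nonneg (ae_of_all _ hTi.2.2) ((kA.add kB).div_const 2) (ae_of_all _ hpw)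
  have hAB : ∫ q, (A q + B q) / 2 = ((∫ q, A q) + ∫ q, B q) / 2 := by
    rw [integral_div, integral_add kA kB]
  rw [hAB, lA] at hle
  linarith

end Pool.Agent.H87.TQ
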