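import Pool.Agent.H87.TQ.Tf
import Pool.Agent.H90.TQ.Wt
import Pool.Agent.H88.TQ.E
import Pool.Agent.H42.TQ.B3

/-! MP_09540e_TQ, group C: the transport term, summed over the boxes. -/

set_option autoImplicit false

open Set Filter Topology MeasureTheory
open scoped ContDiff InnerProductSpace

namespace Pool.Agent.H87.TQ

open Pool.Agent.H16 Pool.Agent.H72.CC Pool.Agent.H94.EP Pool.Agent.H87.EP Pool.Agent.H42.TQ
open Pool.Agent.H87.NS hiding c1
open Pool.Agent.H16.TU hiding Sl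
open Pool.Agent.H88.TQ (Su)
open Pool.Agent.H90.TQ (wS wS_smooth wS_one wS_zero wS_pr c2_smooth c2_01 c2_one c2_zero cb_smooth Fb_cs cb_eq fub fub_w fib_zero Fb_out rsq_pt sq2_nn sq2_cont)

theorem Fb_rot (L b : ℝ) {v : E3 → E3} (hv : Vs v) (θ : ℝ) (x : E3) : Fb L b v (rot θ x) = Fb L b v x := by
  have hO := (vs_ri hv).2.2.1
  have e2 : (rot θ x) 2 = x 2 := rfl
  have e3 : c2 (rot θ x) = c2 x := by
    unfold c2
    rw [rsq_rot]
  unfold Fb
  rw [cb_eq, cb_eq, e2, e3, hO.rot]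

theorem Fb_sup {L b : ℝ} (hL : 0 < L) {v : E3 → E3} {x : E3} (h : Fb L b v x ≠ 0) : rsq x ≤ 1 / 4 ∧ |x 2 - b| ≤ 2 * L := by
  constructor
  · by_contra h1
    exact h (Fb_out (by linarith [not_le.1 h1]))
  · by_contra h1
    rw [not_le] at h1
    apply h
    have h2 : wS ((x 2 - b) / L) = 0 := by
      apply wS_zero
      rw [div_pow, le_div_iff₀ (by positivity)]
      have h5 : (2 * L) ^ 2 < |x 2 - b| ^ 2 := pow_lt_pow_left₀ h1 (by positivity) (by norm_num)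
      rw [sq_abs] at h5
      nlinarith
    unfold Fb
    rw [cb_eq, h2]
    ring

theorem mz_facts {κ L : ℝ} (hκ : 1 ≤ κ) (hL : 60 ≤ L) : 0 < mz κ L ∧ mz κ L ≤ 1 / 3 ∧ Sc κ ≤ Real.log (1 / mz κ L) := by
  have h1 : 60 ≤ κ * L := by nlinarith
  have h0 : 0 < κ * L := by linarith
  have hm : mz κ L = ((κ * L) ^ 6)⁻¹ := rfl
  refine ⟨by rw [hm]; positivity, ?_, ?_⟩
  · rw [hm, inv_eq_one_div]
    apply one_div_le_one_div_of_le (by norm_num)
    have : (60 : ℝ) ^ 6 ≤ (κ * L) ^ 6 := pow_le_pow_left₀ (by norm_num) h1 6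
    norm_num at this
    linarith
  · rw [hm, one_div, inv_inv, Real.log_pow, Real.log_mul (by linarith) (by linarith)]
    unfold Sc
    have h2 : 0 ≤ Real.log κ := Real.log_nonneg hκ
    have h3 : (4 : ℝ) ≤ Real.log L := by
      rw [Real.le_log_iff_exp_le (by linarith)]
      have h4 : Real.exp 4 = Real.exp 1 ^ 4 := by
        rw [← Real.exp_nat_mul]
        norm_num
      have h5 := Real.exp_one_lt_d9
      have h6 : Real.exp 1 ^ 4 ≤ 2.75 ^ 4 := pow_le_pow_left₀ (Real.exp_pos 1).le (by linarith) 4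
      rw [h4]
      norm_num at h6 ⊢
      linarith
    push_cast
    linarith

theorem tr : ∃ C : ℝ, 1 ≤ C ∧ ∀ (ε K κ L a m : ℝ) (v : E3 → E3), Pool.Agent.H94.EP.Sl ε K κ v → C ≤ L → 0 < m → (∀ b, NO L b v ≤ κ) →
    Su m (rz κ) (mz κ L) L a v (fun b x => adv (v x) (Fb L b v) x) ≤ C * (m * √(Sc κ) + 1 / κ) * (DO L a v + GG L a v) := by
  obtain ⟨Ct, hCt, ht⟩ := transport
  obtain ⟨Cw, hCw, hw⟩ := Pool.Agent.H90.TQ.wt
  obtain ⟨Cv, hCv, hcv⟩ := Pool.Agent.H90.TQ.cv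
  obtain ⟨Cg, hCg, hg⟩ := grad_sum
  obtain ⟨C0, hC0, h0⟩ := mj_int
  obtain ⟨Cf, hCf, hf⟩ := fw_sum
  obtain ⟨W1, hW1⟩ := w_sum
  obtain ⟨W2, hW2⟩ := wz_sum
  refine ⟨60 + W1 + W2 + 18 * (Ct * Cf) + 108 * (Ct * (C0 * (1 + Cg))) + 72 * (Cw * (C0 * (1 + Cg))) + Cw * Cv + Ct + Cw + Cv + Cg + C0 + Cf, ?_, ?_⟩
  · have := hW1.1
    have := hW2.1
    have h1 : 0 ≤ Ct * Cf := by positivity
    have h2 : 0 ≤ Ct * (C0 * (1 + Cg)) := by positivity
    have h3 : 0 ≤ Cw * (C0 * (1 + Cg)) := by positivity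
    have h4 : 0 ≤ Cw * Cv := by positivity
    linarith
  intro ε K κ L a m v hS hCL hm hNO
  have hW11 := hW1.1
  have hW21 := hW2.1
  have p1 : 0 ≤ Ct * Cf := by positivity
  have p2 : 0 ≤ Ct * (C0 * (1 + Cg)) := by positivity
  have p3 : 0 ≤ Cw * (C0 * (1 + Cg)) := by positivity
  have p4 : 0 ≤ Cw * Cv := by positivity
  obtain ⟨CC, hCC⟩ : ∃ CC, CC = 60 + W1 + W2 + 18 * (Ct * Cf) + 108 * (Ct * (C0 * (1 + Cg))) + 72 * (Cw * (C0 * (1 + Cg))) + Cw * Cv + Ct + Cw + Cv + Cg + C0 + Cf := ⟨_, rfl⟩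
  rw [← hCC] at hCL ⊢
  have hL60 : 60 ≤ L := by linarith
  have hL : 1 ≤ L := by linarith
  have hL0 : 0 < L := by linarith
  have hv := hS.vs
  have hκ := hS.k1
  have hκ0 : 0 < κ := by linarith
  have hr0 : 0 < rz κ := by
    unfold rz
    positivity
  have hr1 : rz κ ≤ 1 := by
    unfold rz
    exact inv_le_one_of_one_le₀ (one_le_pow₀ hκ)
  obtain ⟨m0p, m0l, m0S⟩ := mz_facts hκ hL60
  have hS20 : 20 ≤ Sc κ := by
    unfold Sc
    have := Real.log_nonneg hκ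
    linarith
  obtain ⟨S, hSd⟩ : ∃ S, S = Sc κ := ⟨_, rfl⟩
  have hlz : 1 + Real.log ((1 + rz κ) / rz κ) ≤ S := by rw [hSd]; exact Pool.Agent.H90.TQ.log_rz hκ
  rw [← hSd] at hS20 m0S ⊢
  obtain ⟨σ, hσ⟩ : ∃ σ, σ = √S := ⟨_, rfl⟩
  have hσ2 : σ ^ 2 = S := by rw [hσ]; exact Real.sq_sqrt (by linarith)
  have hσ0 : 0 ≤ σ := by rw [hσ]; exact Real.sqrt_nonneg _
  have hσ1 : 1 ≤ σ := by nlinarith
  rw [← hσ]
  have hσp : 0 < σ := by linarith
  have hlog1 : 1 + Real.log (1 / rz κ) ≤ S := by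
    have h1 : Real.log (1 / rz κ) ≤ Real.log ((1 + rz κ) / rz κ) := by
      apply Real.log_le_log (by positivity)
      exact div_le_div_of_nonneg_right (by linarith) hr0.le
    linarith
  have hlog0 : 0 ≤ Real.log (1 / rz κ) := Real.log_nonneg (by rw [le_div_iff₀ hr0]; linarith)
  -- integrability over the boxes
  obtain ⟨fm, fn, fi, fl⟩ := hf L a σ (rz κ) v (by linarith) hr0 hr1 hσ1 hv
  obtain ⟨mi, ml⟩ := h0 Cg L a v (by linarith) hL hv
  have mm := mj_meas Cg L hv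
  have mn := mj_nn (show 0 ≤ Cg by linarith) L v
  obtain ⟨⟨wi1, -⟩, ⟨wi2, -⟩⟩ := hW1.2 L a v (by linarith) hv
  obtain ⟨wi3, -⟩ := hW2.2 L a (rz κ) v (by linarith) hr0 hr1 hv
  obtain ⟨bi1, bl1⟩ := bx hL0 a fm fn fi
  obtain ⟨bi2, bl2⟩ := bx hL0 a mm mn mi
  obtain ⟨bi3, bl3⟩ := hcv L a v (by linarith) hv
  have hx0 : ∀ x : E3, 0 < rsq x + rz κ := fun x => by have := rsq_nn x; linarith
  have hW := (vs_ri hv).2.1
  have ms1 : Measurable (Cy.indicator (fun x => dh (sW v) x ^ 2)) := (hW.dh.sm.continuous.pow 2).measurable.indicator Cy_meas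
  have ms2 : Measurable (Cy.indicator (fun x => rsq x * dh (pd 2 (sW v)) x ^ 2)) :=
    (rsq_cd.continuous.mul (hW.pd2.dh.sm.continuous.pow 2)).measurable.indicator Cy_meas
  have ms3 : Measurable (Cy.indicator (fun x => pd 2 (sW v) x ^ 2 / (rsq x + rz κ))) :=
    ((hW.pd2.sm.continuous.pow 2).div (rsq_cd.continuous.add continuous_const) fun x => (hx0 x).ne').measurable.indicator Cy_meas
  have n1 : ∀ x, 0 ≤ Cy.indicator (fun x => dh (sW v) x ^ 2) x := fun x => indicator_nonneg (fun y _ => sq_nonneg _) x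
  have n2 : ∀ x, 0 ≤ Cy.indicator (fun x => rsq x * dh (pd 2 (sW v)) x ^ 2) x := fun x => indicator_nonneg (fun y _ => mul_nonneg (rsq_nn y) (sq_nonneg _)) x
  have n3 : ∀ x, 0 ≤ Cy.indicator (fun x => pd 2 (sW v) x ^ 2 / (rsq x + rz κ)) x := fun x => indicator_nonneg (fun y _ => div_nonneg (sq_nonneg _) (hx0 y).le) x
  obtain ⟨p, hp⟩ : ∃ p, p = Ct * m / S := ⟨_, rfl⟩
  have hp0 : 0 ≤ p := by rw [hp]; positivity
  have hSp : 0 < S := by linarith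
  have hσ3 : 2 / σ * S ^ 2 = 2 * σ ^ 3 := by
    rw [← hσ2]
    field_simp
  -- the bound for each box
  have hbox : ∀ b, dPsi m (rz κ) (mz κ L) (Fb L b v) (fun x => adv (v x) (Fb L b v) x) ≤
      p / 2 * Bi L b (fW σ (rz κ) v) + (p * (1 + 2 * σ ^ 3) + 2 * (Cw / κ)) * Bi L b (mj Cg L v) + Cw / κ * (DO L b v + GG L b v) := by
    intro b
    obtain ⟨M, hM1, hM2⟩ := hw ε K κ L b v hS (by linarith) (hNO b)
    have h1 := ht m (rz κ) (mz κ L) b (2 * L) M v (Fb L b v) hm hr0 m0p m0l (by linarith) hv (Fb_cs hL0 b hv) (fun θ x => Fb_rot L b hv θ x)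
      (fun x hx => Fb_sup hL0 hx) hM1
    have h2 := tr_q (b := b) hL hr0 hσp hv hlz (box_int hL0 a b ms1 n1 wi1) (box_int hL0 a b ms2 n2 wi2) (box_int hL0 a b ms3 n3 wi3)
    have h3 := hg L a b v hL hv
    have hT0 : 0 ≤ ∫ q, Tr (rz κ) b (2 * L) v (Fb L b v) q := integral_nonneg (Tr_int (b := b) hr0 (show 0 < 2 * L by linarith) hv (Fb_cs hL0 b hv)).2.2
    have h4 : Ct * m / Real.log (1 / mz κ L) ≤ p := by
      rw [hp]
      exact div_le_div_of_nonneg_left (by positivity) hSp m0S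
    have h5 := mul_le_mul_of_nonneg_right h4 hT0
    have h6 := mul_le_mul_of_nonneg_left h2 hp0
    rw [hσ3] at h6
    have h7 : 0 ≤ 1 + 2 * σ ^ 3 := by positivity
    have h8 : p * (1 + 2 * σ ^ 3) * (∫ x, gsq (Fb L b v) x) ≤ p * (1 + 2 * σ ^ 3) * (2 * Bi L b (mj Cg L v)) :=
      mul_le_mul_of_nonneg_left h3 (mul_nonneg hp0 h7)
    have h9 : Cw / κ * (∫ x, gsq (Fb L b v) x) ≤ Cw / κ * (2 * Bi L b (mj Cg L v)) := mul_le_mul_of_nonneg_left h3 (by positivity)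
    linarith
  have hE0 : 0 ≤ DO L a v + GG L a v := by
    have h7 := (E_nn (L := L) a v)
    exact add_nonneg h7.1 h7.2
  obtain ⟨E, hE⟩ : ∃ E, E = DO L a v + GG L a v := ⟨_, rfl⟩
  rw [← hE] at hE0 fl ml bl3 ⊢
  have hfin : (1 / L) * ∫ b, ph L a b * (p / 2 * Bi L b (fW σ (rz κ) v) + (p * (1 + 2 * σ ^ 3) + 2 * (Cw / κ)) * Bi L b (mj Cg L v) + Cw / κ * (DO L b v + GG L b v)) ≤
      CC * (m * σ + 1 / κ) * E := by
    have e : (fun b => ph L a b * (p / 2 * Bi L b (fW σ (rz κ) v) + (p * (1 + 2 * σ ^ 3) + 2 * (Cw / κ)) * Bi L b (mj Cg L v) + Cw / κ * (DO L b v + GG L b v))) =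
        fun b => (p / 2 * (ph L a b * Bi L b (fW σ (rz κ) v)) + (p * (1 + 2 * σ ^ 3) + 2 * (Cw / κ)) * (ph L a b * Bi L b (mj Cg L v))) +
          Cw / κ * (ph L a b * (DO L b v + GG L b v)) := by
      funext b
      ring
    have i12 : Integrable (fun b => p / 2 * (ph L a b * Bi L b (fW σ (rz κ) v)) + (p * (1 + 2 * σ ^ 3) + 2 * (Cw / κ)) * (ph L a b * Bi L b (mj Cg L v))) :=
      (bi1.const_mul _).add (bi2.const_mul _)
    rw [e, integral_add i12 (bi3.const_mul _), integral_add (bi1.const_mul _) (bi2.const_mul _), integral_const_mul, integral_const_mul, integral_const_mul]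
    obtain ⟨I1, hI1⟩ : ∃ I, I = ∫ b, ph L a b * Bi L b (fW σ (rz κ) v) := ⟨_, rfl⟩
    obtain ⟨I2, hI2⟩ : ∃ I, I = ∫ b, ph L a b * Bi L b (mj Cg L v) := ⟨_, rfl⟩
    obtain ⟨I3, hI3⟩ : ∃ I, I = ∫ b, ph L a b * (DO L b v + GG L b v) := ⟨_, rfl⟩
    obtain ⟨J1, hJ1⟩ : ∃ J, J = ∫ x, ph L a (x 2) * fW σ (rz κ) v x := ⟨_, rfl⟩
    obtain ⟨J2, hJ2⟩ : ∃ J, J = ∫ x, ph L a (x 2) * mj Cg L v x := ⟨_, rfl⟩
    rw [← hI1, ← hJ1] at bl1
    rw [← hI2, ← hJ2] at bl2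
    rw [← hI3] at bl3
    rw [← hJ1] at fl
    rw [← hJ2] at ml
    rw [← hI1, ← hI2, ← hI3]
    have g1 : J1 ≤ Cf * σ * S * E := by
      refine fl.trans ?_
      have h1 : Cf * σ * (1 + Real.log (1 / rz κ)) ≤ Cf * σ * S := mul_le_mul_of_nonneg_left hlog1 (by positivity)
      exact mul_le_mul_of_nonneg_right h1 hE0
    have g2 : p / 2 * ((1 / L) * I1) ≤ p / 2 * (36 * (Cf * σ * S * E)) := mul_le_mul_of_nonneg_left (by linarith) (by linarith)
    have hpS : p * S = Ct * m := by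
      rw [hp]
      field_simp
    have g3 : p / 2 * (36 * (Cf * σ * S * E)) = 18 * (Ct * Cf) * (m * σ * E) := by
      calc _ = 18 * (p * S) * Cf * σ * E := by ring
        _ = _ := by rw [hpS]; ring
    have h7 : 0 ≤ p * (1 + 2 * σ ^ 3) := by positivity
    have h8 : 0 ≤ Cw / κ := by positivity
    have g4 : (p * (1 + 2 * σ ^ 3) + 2 * (Cw / κ)) * ((1 / L) * I2) ≤ (p * (1 + 2 * σ ^ 3) + 2 * (Cw / κ)) * (36 * (C0 * (1 + Cg) * E)) :=
      mul_le_mul_of_nonneg_left (by linarith) (by linarith)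
    have g5 : p * (1 + 2 * σ ^ 3) ≤ 3 * (Ct * (m * σ)) := by
      have h9 : 1 ≤ σ ^ 3 := one_le_pow₀ hσ1
      have h10 : p * (1 + 2 * σ ^ 3) ≤ p * (3 * σ ^ 3) := mul_le_mul_of_nonneg_left (by linarith) hp0
      have h11 : p * (3 * σ ^ 3) = 3 * (Ct * (m * σ)) := by
        calc p * (3 * σ ^ 3) = 3 * (p * σ ^ 2) * σ := by ring
          _ = _ := by rw [hσ2, hpS]; ring
      linarith
    have h12 : 0 ≤ 36 * (C0 * (1 + Cg) * E) := by positivity
    have g6 : (p * (1 + 2 * σ ^ 3) + 2 * (Cw / κ)) * (36 * (C0 * (1 + Cg) * E)) ≤ (3 * (Ct * (m * σ)) + 2 * (Cw / κ)) * (36 * (C0 * (1 + Cg) * E)) :=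
      mul_le_mul_of_nonneg_right (by linarith) h12
    have g7 : (3 * (Ct * (m * σ)) + 2 * (Cw / κ)) * (36 * (C0 * (1 + Cg) * E)) =
        108 * (Ct * (C0 * (1 + Cg))) * (m * σ * E) + 72 * (Cw * (C0 * (1 + Cg))) * (1 / κ * E) := by ring
    have g8 : Cw / κ * ((1 / L) * I3) ≤ Cw / κ * (Cv * E) := mul_le_mul_of_nonneg_left bl3 h8
    have g9 : Cw / κ * (Cv * E) = Cw * Cv * (1 / κ * E) := by ring
    have u1 : 0 ≤ m * σ * E := by positivity
    have u2 : 0 ≤ 1 / κ * E := by positivity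
    have v1 : (18 * (Ct * Cf) + 108 * (Ct * (C0 * (1 + Cg)))) * (m * σ * E) ≤ CC * (m * σ * E) :=
      mul_le_mul_of_nonneg_right (by linarith) u1
    have v2 : (72 * (Cw * (C0 * (1 + Cg))) + Cw * Cv) * (1 / κ * E) ≤ CC * (1 / κ * E) :=
      mul_le_mul_of_nonneg_right (by linarith) u2
    have e2 : 1 / L * (p / 2 * I1 + (p * (1 + 2 * σ ^ 3) + 2 * (Cw / κ)) * I2 + Cw / κ * I3) =
        p / 2 * ((1 / L) * I1) + (p * (1 + 2 * σ ^ 3) + 2 * (Cw / κ)) * ((1 / L) * I2) + Cw / κ * ((1 / L) * I3) := by ring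
    rw [e2]
    linarith
  refine le_trans ?_ hfin
  unfold Su
  refine mul_le_mul_of_nonneg_left ?_ (by positivity)
  have hmaj : Integrable (fun b => ph L a b * (p / 2 * Bi L b (fW σ (rz κ) v) + (p * (1 + 2 * σ ^ 3) + 2 * (Cw / κ)) * Bi L b (mj Cg L v) +
      Cw / κ * (DO L b v + GG L b v))) := by
    refine (((bi1.const_mul (p / 2)).add (bi2.const_mul (p * (1 + 2 * σ ^ 3) + 2 * (Cw / κ)))).add (bi3.const_mul (Cw / κ))).congr (ae_of_all _ fun b => ?_)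
    simp only [Pi.add_apply]
    ring
  by_cases hi : Integrable (fun b => ph L a b * dPsi m (rz κ) (mz κ L) (Fb L b v) (fun x => adv (v x) (Fb L b v) x))
  · exact integral_mono hi hmaj fun b => mul_le_mul_of_nonneg_left (hbox b) (ph_nn _ _ _)
  · rw [integral_undef hi]
    refine integral_nonneg fun b => mul_nonneg (ph_nn _ _ _) ?_
    have b1 : 0 ≤ Bi L b (fW σ (rz κ) v) := integral_nonneg fn
    have b2 : 0 ≤ Bi L b (mj Cg L v) := integral_nonneg mn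
    have b3 := (E_nn (L := L) b v)
    have b4 : 0 ≤ DO L b v + GG L b v := add_nonneg b3.1 b3.2
    positivity

end Pool.Agent.H87.TQ
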