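import Pool.Agent.H87.TQ.Ge

/-! MP_09540e_TQ, group C: the weighted integrals of the derivatives of `W`. -/

set_option autoImplicit false

open Set Filter Topology MeasureTheory
open scoped ContDiff InnerProductSpace

namespace Pool.Agent.H87.TQ

open Pool.Agent.H16 Pool.Agent.H72.CC Pool.Agent.H94.EP Pool.Agent.H87.EP Pool.Agent.H42.TQ
open Pool.Agent.H87.NS hiding c1
open Pool.Agent.H16.TU hiding Sl

theorem int_rho {r2 : ℝ} (hr : 0 < r2) : ∫ ρ in (0 : ℝ)..1, ρ / (ρ ^ 2 + r2) = (Real.log (1 + r2) - Real.log r2) / 2 := by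
  have h0 : ∀ ρ : ℝ, 0 < ρ ^ 2 + r2 := fun ρ => by positivity
  have hd : ∀ ρ ∈ uIcc (0:ℝ) 1, HasDerivAt (fun ρ : ℝ => Real.log (ρ ^ 2 + r2) / 2) (ρ / (ρ ^ 2 + r2)) ρ := by
    intro ρ _
    have h1 : HasDerivAt (fun ρ : ℝ => ρ ^ 2 + r2) (2 * ρ) ρ := by
      have := ((hasDerivAt_id ρ).pow 2).add_const r2
      refine this.congr_deriv ?_
      simp
    refine ((h1.log (h0 ρ).ne').div_const 2).congr_deriv ?_
    field_simp
  rw [intervalIntegral.integral_eq_sub_of_hasDerivAt hd]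
  · norm_num
    ring
  · refine ContinuousOn.intervalIntegrable ?_
    exact (continuous_id.div (by fun_prop) fun ρ => (h0 ρ).ne').continuousOn

theorem wz_sum : ∃ C : ℝ, 1 ≤ C ∧ ∀ (L a r2 : ℝ) (v : E3 → E3), C ≤ L → 0 < r2 → r2 ≤ 1 → Vs v →
    Integrable (fun x => ph L a (x 2) * Cy.indicator (fun x => pd 2 (sW v) x ^ 2 / (rsq x + r2)) x) ∧
    ∫ x, ph L a (x 2) * Cy.indicator (fun x => pd 2 (sW v) x ^ 2 / (rsq x + r2)) x ≤
      C * (1 + Real.log (1 / r2)) * (DO L a v + GG L a v) := by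
  obtain ⟨C3, hC31, h3⟩ := Pool.Agent.H87.EP.S3
  refine ⟨4 * C3, by linarith, fun L a r2 v hCL hr hr1 hv => ?_⟩
  have hL : 1 ≤ L := by linarith
  have hC3L : C3 ≤ L := by linarith
  have hW := (vs_ri hv).2.1.pd2
  have h0 : ∀ x : E3, 0 < rsq x + r2 := fun x => by have := rsq_nn x; linarith
  have hgc : Continuous (fun x : E3 => pd 2 (sW v) x ^ 2 / (rsq x + r2)) :=
    (hW.sm.continuous.pow 2).div (rsq_cd.continuous.add continuous_const) fun x => (h0 x).ne'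
  have hg0 : ∀ x : E3, 0 ≤ pd 2 (sW v) x ^ 2 / (rsq x + r2) := fun x => by have := h0 x; positivity
  have iA : Integrable (fun x => A1 L a x * (pd 2 (sW v) x ^ 2 / (rsq x + r2))) := by
    have i1 := (E_sq (E_ri (A1_ri hL a)) (E_ri hW)).const_mul (1 / r2)
    refine i1.mono' ((A1_ri hL a).sm.continuous.mul hgc).aestronglyMeasurable (ae_of_all _ fun x => ?_)
    have hA := (A1_nn L a x).1
    rw [Real.norm_of_nonneg (mul_nonneg hA (hg0 x))]
    have h5 : pd 2 (sW v) x ^ 2 / (rsq x + r2) ≤ pd 2 (sW v) x ^ 2 / r2 :=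
      div_le_div_of_nonneg_left (sq_nonneg _) hr (by have := rsq_nn x; linarith)
    calc _ ≤ A1 L a x * (pd 2 (sW v) x ^ 2 / r2) := mul_le_mul_of_nonneg_left h5 hA
      _ = 1 / r2 * (A1 L a x * pd 2 (sW v) x ^ 2) := by ring
  obtain ⟨i1, -⟩ := A1_dom (L := L) (a := a) hgc.measurable hg0 iA
  refine ⟨i1, ?_⟩
  have hB0 : 0 ≤ C3 * (DO L a v + GG L a v) := by
    have h7 := (E_nn (L := L) a v)
    exact mul_nonneg (by linarith) (add_nonneg h7.1 h7.2)
  obtain ⟨B, hB⟩ : ∃ B, B = C3 * (DO L a v + GG L a v) := ⟨_, rfl⟩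
  rw [← hB] at hB0
  have hrot : ∀ (θ : ℝ) (x : E3), ph L a ((rot θ x) 2) * Cy.indicator (fun x => pd 2 (sW v) x ^ 2 / (rsq x + r2)) (rot θ x) =
      ph L a (x 2) * Cy.indicator (fun x => pd 2 (sW v) x ^ 2 / (rsq x + r2)) x := by
    intro θ x
    have e2 : (rot θ x) 2 = x 2 := rfl
    rw [e2]
    congr 1
    have hmem : rot θ x ∈ Cy ↔ x ∈ Cy := by
      show rsq (rot θ x) ≤ 1 / 8 ↔ rsq x ≤ 1 / 8
      rw [rsq_rot]
    by_cases h : x ∈ Cy
    · rw [indicator_of_mem h, indicator_of_mem (hmem.2 h), hW.rot, rsq_rot]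
    · rw [indicator_of_notMem h, indicator_of_notMem (fun h' => h (hmem.1 h'))]
  rw [B_full hrot i1]
  have hin : ∀ ρ : ℝ, 0 < ρ → ρ * ∫ s, ph L a ((lp ρ s) 2) * Cy.indicator (fun x => pd 2 (sW v) x ^ 2 / (rsq x + r2)) (lp ρ s) ≤
      (Ioc (0:ℝ) 1).indicator (fun ρ => B * (ρ / (ρ ^ 2 + r2))) ρ := by
    intro ρ hρ
    by_cases h : ρ ^ 2 ≤ 1 / 8
    · have hρ1 : ρ ≤ 1 := by nlinarith
      rw [indicator_of_mem (show ρ ∈ Ioc (0:ℝ) 1 from ⟨hρ, hρ1⟩)]
      obtain ⟨-, j2⟩ := h3 L a v hC3L hv ρ hρ (by linarith)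
      have e1 : (fun s => ph L a ((lp ρ s) 2) * Cy.indicator (fun x => pd 2 (sW v) x ^ 2 / (rsq x + r2)) (lp ρ s)) =
          fun s => (1 / (ρ ^ 2 + r2)) * (ph L a s * pd 2 (sW v) (lp ρ s) ^ 2) := by
        funext s
        rw [F_lp2, indicator_of_mem (show lp ρ s ∈ Cy by show rsq (lp ρ s) ≤ 1 / 8; rw [F_rsq]; exact h), F_rsq]
        ring
      rw [e1, integral_const_mul]
      have h6 : 0 < ρ ^ 2 + r2 := by positivity
      calc ρ * (1 / (ρ ^ 2 + r2) * ∫ s, ph L a s * pd 2 (sW v) (lp ρ s) ^ 2) =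
            (ρ / (ρ ^ 2 + r2)) * ∫ s, ph L a s * pd 2 (sW v) (lp ρ s) ^ 2 := by ring
        _ ≤ (ρ / (ρ ^ 2 + r2)) * B := by
            rw [hB]
            exact mul_le_mul_of_nonneg_left j2 (by positivity)
        _ = _ := by ring
    · have e1 : (fun s => ph L a ((lp ρ s) 2) * Cy.indicator (fun x => pd 2 (sW v) x ^ 2 / (rsq x + r2)) (lp ρ s)) = fun _ => 0 := by
        funext s
        rw [indicator_of_notMem, mul_zero]
        show ¬ rsq (lp ρ s) ≤ 1 / 8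
        rw [F_rsq]
        exact h
      rw [e1, integral_zero, mul_zero]
      refine indicator_nonneg (fun r hr' => ?_) ρ
      have : 0 < r := hr'.1
      positivity
  have hnn : ∀ ρ : ℝ, 0 < ρ → 0 ≤ ρ * ∫ s, ph L a ((lp ρ s) 2) * Cy.indicator (fun x => pd 2 (sW v) x ^ 2 / (rsq x + r2)) (lp ρ s) := by
    intro ρ hρ
    refine mul_nonneg hρ.le (integral_nonneg fun s => mul_nonneg (ph_nn _ _ _) (indicator_nonneg (fun y _ => hg0 y) _))
  have hci : ContinuousOn (fun ρ : ℝ => B * (ρ / (ρ ^ 2 + r2))) (Icc 0 1) := by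
    refine (continuous_const.mul (continuous_id.div (by fun_prop) fun ρ => ?_)).continuousOn
    have : 0 < ρ ^ 2 + r2 := by positivity
    exact this.ne'
  have hii : IntegrableOn (fun ρ : ℝ => B * (ρ / (ρ ^ 2 + r2))) (Ioc 0 1) :=
    (hci.integrableOn_Icc).mono_set Ioc_subset_Icc_self
  have hle : ∫ ρ in Ioi (0 : ℝ), ρ * ∫ s, ph L a ((lp ρ s) 2) * Cy.indicator (fun x => pd 2 (sW v) x ^ 2 / (rsq x + r2)) (lp ρ s) ≤
      ∫ ρ in Ioi (0 : ℝ), (Ioc (0:ℝ) 1).indicator (fun ρ => B * (ρ / (ρ ^ 2 + r2))) ρ := by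
    refine integral_mono_of_nonneg ?_ ?_ ?_
    · filter_upwards [ae_restrict_mem measurableSet_Ioi] with ρ hρ
      exact hnn ρ hρ
    · exact ((integrable_indicator_iff measurableSet_Ioc).2 hii).integrableOn
    · filter_upwards [ae_restrict_mem measurableSet_Ioi] with ρ hρ
      exact hin ρ hρ
  have hval : ∫ ρ in Ioi (0 : ℝ), (Ioc (0:ℝ) 1).indicator (fun ρ => B * (ρ / (ρ ^ 2 + r2))) ρ =
      B * ((Real.log (1 + r2) - Real.log r2) / 2) := by
    rw [setIntegral_indicator measurableSet_Ioc]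
    have : Ioi (0:ℝ) ∩ Ioc 0 1 = Ioc 0 1 := by
      ext ρ
      constructor
      · exact fun h => h.2
      · exact fun h => ⟨h.1, h⟩
    rw [this, ← intervalIntegral.integral_of_le zero_le_one, intervalIntegral.integral_const_mul, int_rho hr]
  rw [hval] at hle
  have hl2 : Real.log (1 + r2) ≤ 1 := by
    have h8 : Real.log (1 + r2) ≤ Real.log 2 := Real.log_le_log (by linarith) (by linarith)
    have h9 := Real.log_two_lt_d9
    linarith
  have hlr : Real.log (1 / r2) = - Real.log r2 := by rw [one_div, Real.log_inv]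
  have hl0 : 0 ≤ Real.log (1 / r2) := Real.log_nonneg (by rw [le_div_iff₀ hr]; linarith)
  have hpi := Real.pi_lt_d2
  have hpi0 := Real.pi_pos
  calc 2 * Real.pi * _ ≤ 2 * Real.pi * (B * ((Real.log (1 + r2) - Real.log r2) / 2)) := mul_le_mul_of_nonneg_left hle (by positivity)
    _ = Real.pi * B * (Real.log (1 + r2) - Real.log r2) := by ring
    _ ≤ Real.pi * B * (1 + Real.log (1 / r2)) := by
        refine mul_le_mul_of_nonneg_left ?_ (by positivity)
        rw [hlr]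
        linarith
    _ ≤ 4 * B * (1 + Real.log (1 / r2)) := by
        refine mul_le_mul_of_nonneg_right ?_ (by linarith)
        nlinarith
    _ = 4 * C3 * (1 + Real.log (1 / r2)) * (DO L a v + GG L a v) := by rw [hB]; ring

/-- The other two weighted integrals. -/
theorem w_sum : ∃ C : ℝ, 1 ≤ C ∧ ∀ (L a : ℝ) (v : E3 → E3), C ≤ L → Vs v →
    (Integrable (fun x => ph L a (x 2) * Cy.indicator (fun x => dh (sW v) x ^ 2) x) ∧
    ∫ x, ph L a (x 2) * Cy.indicator (fun x => dh (sW v) x ^ 2) x ≤ C * (DO L a v + GG L a v)) ∧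
    (Integrable (fun x => ph L a (x 2) * Cy.indicator (fun x => rsq x * dh (pd 2 (sW v)) x ^ 2) x) ∧
    ∫ x, ph L a (x 2) * Cy.indicator (fun x => rsq x * dh (pd 2 (sW v)) x ^ 2) x ≤ C * (DO L a v + GG L a v)) := by
  obtain ⟨C1, hC1, h1⟩ := Pool.Agent.H87.EP.S1
  obtain ⟨C2, hC2, h2⟩ := Pool.Agent.H87.EP.S2
  refine ⟨C1 + C2, by linarith, fun L a v hCL hv => ?_⟩
  have hL : 1 ≤ L := by linarith
  have hW := (vs_ri hv).2.1
  have h7 := (E_nn (L := L) a v)
  have h8 : 0 ≤ DO L a v + GG L a v := add_nonneg h7.1 h7.2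
  constructor
  · obtain ⟨i1, l1⟩ := A1_dom (L := L) (a := a) (g := fun x => dh (sW v) x ^ 2) (hW.dh.sm.continuous.pow 2).measurable
      (fun x => sq_nonneg _) (E_sq (E_ri (A1_ri hL a)) (E_ri hW.dh))
    refine ⟨i1, l1.trans ((h2 L a v (by linarith) hv).trans ?_)⟩
    nlinarith
  · have hc : Continuous (fun x : E3 => rsq x * dh (pd 2 (sW v)) x ^ 2) := rsq_cd.continuous.mul (hW.pd2.dh.sm.continuous.pow 2)
    have hle : ∀ x, A1 L a x * (rsq x * dh (pd 2 (sW v)) x ^ 2) ≤ A1 L a x * gsq (pd 2 (sW v)) x := by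
      intro x
      rw [gsq_eq hW.pd2 x]
      exact mul_le_mul_of_nonneg_left (by nlinarith [sq_nonneg (pd 2 (pd 2 (sW v)) x)]) (A1_nn L a x).1
    have ig := E_gsqI (E_ri (A1_ri hL a)) (E_ri hW.pd2)
    have ii : Integrable (fun x => A1 L a x * (rsq x * dh (pd 2 (sW v)) x ^ 2)) := by
      refine ig.mono' ((A1_ri hL a).sm.continuous.mul hc).aestronglyMeasurable (ae_of_all _ fun x => ?_)
      rw [Real.norm_of_nonneg (mul_nonneg (A1_nn L a x).1 (mul_nonneg (rsq_nn x) (sq_nonneg _)))]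
      exact hle x
    obtain ⟨i1, l1⟩ := A1_dom (L := L) (a := a) (g := fun x => rsq x * dh (pd 2 (sW v)) x ^ 2) hc.measurable
      (fun x => mul_nonneg (rsq_nn x) (sq_nonneg _)) ii
    refine ⟨i1, l1.trans ((integral_mono ii ig hle).trans ((h1 L a v (by linarith) hv).trans ?_))⟩
    nlinarith

end Pool.Agent.H87.TQ
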